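import Pool.Agent.TH140.MR.Lower

/-!
# Cubic tensors
-/

set_option autoImplicit false

open Function

namespace Pool.Agent.TH140.MR

/-- Bound with parameters for `n × n × n` tensors. -/
theorem cubic_params {K : Type*} [RCLike K] (n h l ρ : ℕ) (hn0 : 0 < n) (hn : n ≤ 2 * h * 2 ^ l)
    (hρ : ρ ≤ h) (hc : (2 * h) * (2 * h) ≤ ρ * (2 * h + 2 * h + 2 * (h - 1)))
    (T : ((_ : Fin 3) → Fin n) → K) :
    RankLE (h * (2 * ρ) * ((2 ^ l) ^ 2 + 2 ^ l)) T := by
  have h1 := rankLE_of_params (K := K) (d := 3) (fun _ => n) (fun _ => h) l ρ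
    (i₀ := 0) (i₁ := 1) (i₂ := 2) (by decide) (by decide) (by decide) (fun _ => hn0)
    (fun _ => hn) hρ hρ (by
      refine le_trans hc ?_
      exact Nat.mul_le_mul_left _ (Nat.le_add_right _ _)) T
  have : IsEmpty (Mid (0 : Fin 3) 1 2) := by
    constructor
    rintro ⟨l, h⟩
    fin_cases l <;> simp_all
  have h2 : ∏ _j : Mid (0 : Fin 3) 1 2, 2 * h = 1 := Finset.prod_of_isEmpty _
  rw [h2, mul_one] at h1
  exact h1

theorem cubic_trivial {K : Type*} [RCLike K] (n : ℕ) (T : ((_ : Fin 3) → Fin n) → K) :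
    RankLE (n ^ 2) T := by
  have h1 := rankLE_slices (K := K) (0 : Fin 3) T
  have h2 : ∏ j : {j : Fin 3 // j ≠ 0}, Fintype.card (Fin n) = n ^ 2 := by
    rw [Finset.prod_const, Finset.card_univ, Fintype.card_fin]
    congr 1
  rw [h2] at h1
  exact h1

/-- The maximal rank of `n × n × n` tensors is at most `n² / 3 + 3 n ^ (3 / 2)`. -/
theorem cubic_upper (K : Type*) [RCLike K] (n : ℕ) :
    (maxRank K (fun _ : Fin 3 => n) : ℝ) ≤ (n : ℝ) ^ 2 / 3 + 3 * n * √n := by
  rcases lt_or_ge n 16 with hn | hn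
  · have h1 : maxRank K (fun _ : Fin 3 => n) ≤ n ^ 2 := maxRank_le (cubic_trivial n)
    have h2 : (maxRank K (fun _ : Fin 3 => n) : ℝ) ≤ (n : ℝ) ^ 2 := by exact_mod_cast h1
    refine h2.trans ?_
    have h3 : (n : ℝ) ≤ 16 := by exact_mod_cast hn.le
    have h0 : (0 : ℝ) ≤ n := Nat.cast_nonneg n
    have h4 : √(n : ℝ) ^ 2 = n := Real.sq_sqrt h0
    have h5 : √(n : ℝ) ≤ 4 := by
      rw [Real.sqrt_le_left (by norm_num)]; linarith
    have h6 : 0 ≤ √(n : ℝ) := Real.sqrt_nonneg _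
    nlinarith [mul_nonneg h0 h6, mul_nonneg h6 (sub_nonneg.2 h5), mul_nonneg h0 (mul_nonneg h6 (sub_nonneg.2 h5))]
  · obtain ⟨l, hl1, hl2⟩ : ∃ l, 4 * (2 ^ l) ^ 2 ≤ n ∧ n ≤ 16 * (2 ^ l) ^ 2 := by
      have hL : 1 ≤ Nat.log 4 n := by
        have := Nat.log_mono_right (b := 4) hn
        have h2 : Nat.log 4 16 = 2 := by norm_num
        omega
      refine ⟨Nat.log 4 n - 1, ?_, ?_⟩
      · have h1 : 4 ^ (Nat.log 4 n) ≤ n := Nat.pow_log_le_self 4 (by omega)
        have h2 : 4 * (2 ^ (Nat.log 4 n - 1)) ^ 2 = 4 ^ (Nat.log 4 n) := by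
          rw [← pow_mul, mul_comm (Nat.log 4 n - 1) 2, pow_mul]
          norm_num
          rw [← pow_succ']
          congr 1
          omega
        rw [h2]; exact h1
      · have h1 : n < 4 ^ (Nat.log 4 n + 1) := Nat.lt_pow_succ_log_self (by norm_num) n
        have h2 : 16 * (2 ^ (Nat.log 4 n - 1)) ^ 2 = 4 ^ (Nat.log 4 n + 1) := by
          rw [← pow_mul, mul_comm (Nat.log 4 n - 1) 2, pow_mul]
          norm_num
          rw [show (16 : ℕ) = 4 ^ 2 by norm_num, ← pow_add]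
          congr 1
          omega
        rw [h2]; exact h1.le
    set k : ℕ := 2 ^ l with hk
    have hk1 : 1 ≤ k := Nat.one_le_two_pow
    set h : ℕ := n / (2 * k) + 1 with hh
    set ρ : ℕ := 2 * h / 3 + 1 with hρ
    have hn1 : n ≤ 2 * h * k := by
      have := Nat.lt_mul_div_succ n (show 0 < 2 * k by omega)
      rw [← hh] at this
      nlinarith
    have hn2 : 2 * k * h ≤ n + 2 * k := by
      have := Nat.mul_div_le n (2 * k)
      rw [hh, mul_add, mul_one]
      omega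
    have hh1 : 1 ≤ h := Nat.le_add_left 1 _
    have hgen : ∀ h : ℕ, 1 ≤ h → (2 * h / 3 + 1 ≤ h ∧ 3 * (2 * h / 3 + 1) ≤ 2 * h + 3 ∧
        2 * h + 1 ≤ 3 * (2 * h / 3 + 1)) := by
      intro h hh; omega
    obtain ⟨hρ1, hρ2, hρ3⟩ := hgen h hh1
    rw [← hρ] at hρ1 hρ2 hρ3
    have hc : (2 * h) * (2 * h) ≤ ρ * (2 * h + 2 * h + 2 * (h - 1)) := by
      obtain ⟨c, hc⟩ := Nat.exists_eq_add_of_le hh1
      have e : h - 1 = c := by omega
      rw [e, hc]
      rw [hc] at hρ3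
      nlinarith
    have h1 : maxRank K (fun _ : Fin 3 => n) ≤ h * (2 * ρ) * (k ^ 2 + k) :=
      maxRank_le (cubic_params n h l ρ (by omega) hn1 hρ1 hc)
    have h2 : (maxRank K (fun _ : Fin 3 => n) : ℝ) ≤ (h : ℝ) * (2 * ρ) * ((k : ℝ) ^ 2 + k) := by
      exact_mod_cast h1
    refine h2.trans ?_
    have r1 : (2 : ℝ) * k * h ≤ n + 2 * k := by exact_mod_cast hn2
    have r2 : (3 : ℝ) * ρ ≤ 2 * h + 3 := by exact_mod_cast hρ2
    have r3 : (1 : ℝ) ≤ k := by exact_mod_cast hk1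
    have r4 : (4 : ℝ) * (k : ℝ) ^ 2 ≤ n := by exact_mod_cast hl1
    have r5 : (n : ℝ) ≤ 16 * (k : ℝ) ^ 2 := by exact_mod_cast hl2
    have r6 : (16 : ℝ) ≤ n := by exact_mod_cast hn
    have r7 : (1 : ℝ) ≤ h := by exact_mod_cast hh1
    set s : ℝ := √(n : ℝ) with hs
    have s0 : 0 ≤ s := Real.sqrt_nonneg _
    have s1 : s ^ 2 = n := Real.sq_sqrt (by linarith)
    have s2 : 2 * (k : ℝ) ≤ s := by
      rw [hs]; apply Real.le_sqrt_of_sq_le; nlinarith
    have s3 : s ≤ 4 * k := by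
      rw [hs, Real.sqrt_le_left (by linarith)]; nlinarith
    have s4 : 4 ≤ s := by
      rw [hs]; apply Real.le_sqrt_of_sq_le; nlinarith
    -- `N k ≤ (n + 2 k) (n + 5 k) (k + 1) / 3`
    have k0 : (0 : ℝ) < k := by linarith
    have t1 : (h : ℝ) * (2 * ρ) * ((k : ℝ) ^ 2 + k) * (3 * k) ≤
        k * ((n + 2 * k) * (n + 5 * k) * (k + 1)) := by
      have a1 : (h : ℝ) * (2 * ρ) * ((k : ℝ) ^ 2 + k) * (3 * k) =
          (2 * k * h) * (3 * ρ) * (k * (k + 1)) := by ring
      have a2 : (2 * k * h : ℝ) * (3 * ρ) * (k * (k + 1)) ≤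
          (2 * k * h) * (2 * h + 3) * (k * (k + 1)) := by
        apply mul_le_mul_of_nonneg_right _ (by positivity)
        exact mul_le_mul_of_nonneg_left r2 (by positivity)
      have a3 : (2 * k * h : ℝ) * (2 * h + 3) * (k * (k + 1)) =
          (2 * k * h) * (2 * k * h + 3 * k) * (k + 1) := by ring
      have a4 : (2 * k * h : ℝ) * (2 * k * h + 3 * k) * (k + 1) ≤
          (n + 2 * k) * (n + 5 * k) * (k + 1) := by
        apply mul_le_mul_of_nonneg_right _ (by positivity)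
        apply mul_le_mul r1 (by linarith) (by positivity) (by positivity)
      have a5 : (n + 2 * k : ℝ) * (n + 5 * k) * (k + 1) ≤
          k * ((n + 2 * k) * (n + 5 * k) * (k + 1)) := by
        apply le_mul_of_one_le_left (by positivity) r3
      linarith
    have t2 : (h : ℝ) * (2 * ρ) * ((k : ℝ) ^ 2 + k) * (3 * k) ≤
        (n + 2 * k) * (n + 5 * k) * (k + 1) := by
      have a1 : (h : ℝ) * (2 * ρ) * ((k : ℝ) ^ 2 + k) * (3 * k) =
          (2 * k * h) * (3 * ρ) * (k * (k + 1)) := by ring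
      have a2 : (2 * k * h : ℝ) * (3 * ρ) * (k * (k + 1)) ≤
          (2 * k * h) * (2 * h + 3) * (k * (k + 1)) := by
        apply mul_le_mul_of_nonneg_right _ (by positivity)
        exact mul_le_mul_of_nonneg_left r2 (by positivity)
      have a3 : (2 * k * h : ℝ) * (2 * h + 3) * (k * (k + 1)) =
          (2 * k * h) * (2 * k * h + 3 * k) * (k + 1) := by ring
      have a4 : (2 * k * h : ℝ) * (2 * k * h + 3 * k) * (k + 1) ≤
          (n + 2 * k) * (n + 5 * k) * (k + 1) := by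
        apply mul_le_mul_of_nonneg_right _ (by positivity)
        apply mul_le_mul r1 (by linarith) (by positivity) (by positivity)
      linarith
    have t3 : (n + 2 * k : ℝ) * (n + 5 * k) * (k + 1) ≤ (n ^ 2 + 9 * n * s) * k := by
      rw [← s1]
      have b1 : 0 ≤ s ^ 2 * ((s - 2 * k) * (4 * k - s)) := by
        apply mul_nonneg (by positivity)
        exact mul_nonneg (by linarith) (by linarith)
      have b2 : 0 ≤ s ^ 2 * k * (s - 4) := mul_nonneg (by positivity) (by linarith)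
      have b3 : 0 ≤ k * ((s - 2 * k) * (s + 2 * k)) := by
        apply mul_nonneg (by positivity)
        exact mul_nonneg (by linarith) (by positivity)
      have b4 : 0 ≤ (k : ℝ) ^ 2 * (k - 1) := mul_nonneg (by positivity) (by linarith)
      have b5 : 0 ≤ s ^ 2 * (k : ℝ) ^ 2 := by positivity
      nlinarith
    have t4 : (h : ℝ) * (2 * ρ) * ((k : ℝ) ^ 2 + k) * (3 * k) ≤
        (n ^ 2 / 3 + 3 * n * s) * (3 * k) := by
      calc _ ≤ _ := t2
        _ ≤ _ := t3
        _ = _ := by ring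
    exact le_of_mul_le_mul_right t4 (by positivity)

theorem cubic_lower (K : Type*) [RCLike K] (n : ℕ) :
    (n : ℝ) ^ 2 / 3 ≤ (maxRank K (fun _ : Fin 3 => n) : ℝ) := by
  rcases Nat.eq_zero_or_pos n with rfl | hn
  · simp
  · have h1 := prod_le_maxRank_mul (K := K) (fun _ : Fin 3 => n)
    simp only [Finset.prod_const, Finset.sum_const, Finset.card_univ, Fintype.card_fin,
      smul_eq_mul] at h1
    have h2 : (n : ℝ) ^ 3 ≤ (maxRank K (fun _ : Fin 3 => n) : ℝ) * (3 * n) := by exact_mod_cast h1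
    have h3 : (0 : ℝ) < n := by exact_mod_cast hn
    have h4 : (n : ℝ) ^ 2 * n ≤ (3 * (maxRank K (fun _ : Fin 3 => n) : ℝ)) * n := by
      nlinarith
    have h5 := le_of_mul_le_mul_right h4 h3
    linarith

end Pool.Agent.TH140.MR
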