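import Pool.Agent.TH140.MR.Lower

/-!
# Asymptotics of the maximal rank for all formats
-/

set_option autoImplicit false

open Function

namespace Pool.Agent.TH140.MR

theorem sum_split {ι : Type*} [Fintype ι] [DecidableEq ι] {M : Type*} [AddCommMonoid M]
    {i₀ i₁ i₂ : ι} (h01 : i₀ ≠ i₁) (h02 : i₀ ≠ i₂) (h12 : i₁ ≠ i₂) (f : ι → M) :
    ∑ i, f i = f i₀ + f i₁ + f i₂ + ∑ l : Mid i₀ i₁ i₂, f l :=
  prod_split (M := Multiplicative M) h01 h02 h12 f

/-- The integer part of the main estimate. -/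
theorem maxRank_le_params (K : Type*) [RCLike K] {d : ℕ} (n : Fin d → ℕ) (l : ℕ)
    {i₀ i₁ i₂ : Fin d} (h01 : i₀ ≠ i₁) (h02 : i₀ ≠ i₂) (h12 : i₁ ≠ i₂)
    (hn : ∀ i, 2 * 2 ^ l ≤ n i) (hmax : ∀ i, n i ≤ n i₀) :
    ∃ (h : Fin d → ℕ) (ρ D : ℕ), (∀ i, n i ≤ 2 * 2 ^ l * h i ∧ 2 * 2 ^ l * h i ≤ n i + 2 * 2 ^ l) ∧
      0 < D ∧ D + (d - 1) = ∑ i, 2 * h i ∧ (ρ - 1) * D ≤ (2 * h i₁) * (2 * h i₂) ∧ 1 ≤ ρ ∧
      maxRank K n ≤ h i₀ * (∏ j : Mid i₀ i₁ i₂, 2 * h j) * (2 * ρ) *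
        ((2 ^ l) ^ (d - 1) + 2 ^ l) := by
  set k : ℕ := 2 ^ l with hk
  have hk1 : 1 ≤ k := Nat.one_le_two_pow
  let h : Fin d → ℕ := fun i => n i / (2 * k) + 1
  have hh1 : ∀ i, n i ≤ 2 * k * h i := by
    intro i
    exact (Nat.lt_mul_div_succ (n i) (show 0 < 2 * k by omega)).le
  have hh2 : ∀ i, 2 * k * h i ≤ n i + 2 * k := by
    intro i
    have := Nat.mul_div_le (n i) (2 * k)
    simp only [h]
    rw [mul_add, mul_one]
    omega
  have hh3 : ∀ i, 2 ≤ h i := by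
    intro i
    have : 1 ≤ n i / (2 * k) := (Nat.one_le_div_iff (by omega)).2 (hn i)
    simp only [h]
    omega
  have hh4 : ∀ i, h i ≤ h i₀ := by
    intro i
    simp only [h]
    exact Nat.add_le_add_right (Nat.div_le_div_right (hmax i)) 1
  let D : ℕ := 2 * h i₁ + 2 * h i₂ + 2 * (h i₀ - 1) + ∑ j : Mid i₀ i₁ i₂, (2 * h j - 1)
  have hD1 : 4 * h i₂ < D := by
    have a1 := hh3 i₁; have a2 := hh4 i₂
    simp only [D]; omega
  have hD2 : 4 * h i₁ < D := by
    have a1 := hh3 i₂; have a2 := hh4 i₁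
    simp only [D]; omega
  have hDpos : 0 < D := by omega
  have hDsum : D + (d - 1) = ∑ i, 2 * h i := by
    have e1 := sum_split h01 h02 h12 (fun i => 2 * h i)
    have e2 := sum_split h01 h02 h12 (fun _ : Fin d => 1)
    simp only [Finset.sum_const, Finset.card_univ, Fintype.card_fin, smul_eq_mul, mul_one] at e2
    have e3 : ∑ j : Mid i₀ i₁ i₂, 2 * h j = ∑ j : Mid i₀ i₁ i₂, (2 * h j - 1) +
        Fintype.card (Mid i₀ i₁ i₂) := by
      rw [Fintype.card_eq_sum_ones, ← Finset.sum_add_distrib]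
      refine Finset.sum_congr rfl fun j _ => ?_
      have := hh3 j
      omega
    have a0 := hh3 i₀
    simp only [D]
    rw [e1, e3]
    omega
  let ρ : ℕ := (2 * h i₁) * (2 * h i₂) / D + 1
  have hρ1 : ρ ≤ h i₁ := by
    have : (2 * h i₁) * (2 * h i₂) / D < h i₁ := by
      apply Nat.div_lt_of_lt_mul
      have a1 := hh3 i₁
      calc (2 * h i₁) * (2 * h i₂) = (4 * h i₂) * h i₁ := by ring
        _ < D * h i₁ := Nat.mul_lt_mul_of_pos_right hD1 (by omega)
    exact this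
  have hρ2 : ρ ≤ h i₂ := by
    have : (2 * h i₁) * (2 * h i₂) / D < h i₂ := by
      apply Nat.div_lt_of_lt_mul
      have a1 := hh3 i₂
      calc (2 * h i₁) * (2 * h i₂) = (4 * h i₁) * h i₂ := by ring
        _ < D * h i₂ := Nat.mul_lt_mul_of_pos_right hD2 (by omega)
    exact this
  have hρ3 : (2 * h i₁) * (2 * h i₂) ≤ ρ * D := by
    rw [mul_comm ρ D]
    exact (Nat.lt_mul_div_succ _ hDpos).le
  refine ⟨h, ρ, D, fun i => ⟨hh1 i, hh2 i⟩, hDpos, hDsum, ?_, Nat.le_add_left 1 _, ?_⟩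
  · have : ρ - 1 = (2 * h i₁) * (2 * h i₂) / D := rfl
    rw [this]
    exact Nat.div_mul_le_self _ _
  · apply maxRank_le
    intro T
    exact rankLE_of_params n h l ρ h01 h02 h12 (fun i => by have := hn i; omega)
      (fun i => by
        calc n i ≤ 2 * k * h i := hh1 i
          _ = 2 * h i * k := by ring) hρ1 hρ2 hρ3 T

/-- The main estimate, with real numbers. -/
theorem maxRank_le_real (K : Type*) [RCLike K] {d : ℕ} (n : Fin d → ℕ) (l : ℕ)
    {i₀ i₁ i₂ : Fin d} (h01 : i₀ ≠ i₁) (h02 : i₀ ≠ i₂) (h12 : i₁ ≠ i₂) (hd : 3 ≤ d)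
    (hmax : ∀ i, n i ≤ n i₀) (M : ℝ) (hM : (∑ i, (n i : ℝ)) ≤ M * n i₁)
    (x : ℝ) (hx : 0 < x) (hx1 : 2 * (2 : ℝ) ^ l * x < 1) (hn : ∀ i, 1 ≤ x * n i) :
    (maxRank K n : ℝ) ≤ ((1 + 2 * 2 ^ l * x) ^ d * (1 + 2 * 2 ^ l * M * x) * (1 + 1 / 2 ^ l) /
      (1 - 2 ^ l * x)) * ((∏ i, (n i : ℝ)) / ∑ i, (n i : ℝ)) := by
  set k : ℝ := 2 ^ l with hk
  have hk1 : (1 : ℝ) ≤ k := one_le_pow₀ (by norm_num)
  have hkpos : 0 < k := by linarith
  have hnk : ∀ i, 2 * k ≤ (n i : ℝ) := by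
    intro i
    have h1 := hn i
    have h2 : 2 * k * x ≤ x * n i := by linarith
    nlinarith
  have hn0 : ∀ i, (0 : ℝ) < n i := fun i => by have := hnk i; linarith
  obtain ⟨h, ρ, D, hh, hDpos, hDsum, hρ, hρ1, hmr⟩ := maxRank_le_params K n l h01 h02 h12
    (fun i => by have := hnk i; rw [hk] at this; exact_mod_cast this) hmax
  have hh1 : ∀ i, (n i : ℝ) ≤ 2 * k * h i := fun i => by
    rw [hk]; exact_mod_cast (hh i).1
  have hh2 : ∀ i, 2 * k * h i ≤ (n i : ℝ) + 2 * k := fun i => by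
    rw [hk]; exact_mod_cast (hh i).2
  have hhpos : ∀ i, (0 : ℝ) < h i := by
    intro i
    have := hh1 i
    have := hn0 i
    by_contra hcon
    push Not at hcon
    nlinarith
  have hDpos' : (0 : ℝ) < D := by exact_mod_cast hDpos
  have hDsum' : (D : ℝ) + ((d : ℝ) - 1) = ∑ i, 2 * (h i : ℝ) := by
    have e : ((d - 1 : ℕ) : ℝ) = (d : ℝ) - 1 := by
      rw [Nat.cast_sub (by omega)]; norm_num
    rw [← e]
    exact_mod_cast hDsum
  set S : ℝ := ∑ i, (n i : ℝ) with hS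
  set Pn : ℝ := ∏ i, (n i : ℝ) with hPn
  set P : ℝ := ∏ i, (2 * (h i : ℝ)) with hP
  set Y : ℝ := 2 * (h i₁ : ℝ) with hY
  set Z : ℝ := 2 * (h i₂ : ℝ) with hZ
  have hYpos : 0 < Y := by have := hhpos i₁; positivity
  have hZpos : 0 < Z := by have := hhpos i₂; positivity
  have hPpos : 0 < P := Finset.prod_pos fun i _ => by have := hhpos i; positivity
  have hPnpos : 0 < Pn := Finset.prod_pos fun i _ => hn0 i
  have hdS : (d : ℝ) ≤ x * S := by
    rw [hS, Finset.mul_sum]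
    calc (d : ℝ) = ∑ _i : Fin d, (1 : ℝ) := by simp
      _ ≤ _ := Finset.sum_le_sum fun i _ => hn i
  have hdpos : (3 : ℝ) ≤ d := by exact_mod_cast hd
  have hSpos : 0 < S := by nlinarith
  -- the product
  have hPsplit : P = 2 * (h i₀ * ∏ j : Mid i₀ i₁ i₂, 2 * (h j : ℝ)) * (Y * Z) := by
    rw [hP, prod_split h01 h02 h12]; ring
  set Q : ℝ := h i₀ * ∏ j : Mid i₀ i₁ i₂, 2 * (h j : ℝ) with hQ
  have hQpos : 0 < Q := by
    have := hhpos i₀
    exact mul_pos this (Finset.prod_pos fun j _ => by have := hhpos j; positivity)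
  have hN : (maxRank K n : ℝ) ≤ Q * (2 * ρ) * (k ^ (d - 1) + k) := by
    have : (maxRank K n : ℝ) ≤ ((h i₀ * (∏ j : Mid i₀ i₁ i₂, 2 * h j) * (2 * ρ) *
        ((2 ^ l) ^ (d - 1) + 2 ^ l) : ℕ) : ℝ) := by exact_mod_cast hmr
    push_cast at this
    rw [hk]
    exact this
  have hρ' : (ρ : ℝ) * D ≤ Y * Z + D := by
    have e : (((ρ - 1 : ℕ) : ℝ)) = ρ - 1 := by rw [Nat.cast_sub hρ1]; norm_num
    have h3 : ((ρ : ℝ) - 1) * D ≤ Y * Z := by
      rw [← e, hY, hZ]; exact_mod_cast hρ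
    linarith
  have hkpow : k ^ (d - 1) + k ≤ k ^ (d - 1) * (1 + 1 / k) := by
    have e : k ^ (d - 1) = k ^ (d - 2) * k := by
      rw [← pow_succ]; congr 1; omega
    have e2 : k ≤ k ^ (d - 2) := by
      calc k = k ^ 1 := (pow_one k).symm
        _ ≤ k ^ (d - 2) := pow_le_pow_right₀ hk1 (by omega)
    rw [mul_add, mul_one, e, mul_one_div, mul_div_assoc, div_self hkpos.ne', mul_one]
    linarith
  -- `N D (YZ) ≤ P (YZ + D) k^(d-1) (1 + 1/k)`
  have step1 : (maxRank K n : ℝ) * (D * (Y * Z)) ≤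
      P * (Y * Z + D) * (k ^ (d - 1) * (1 + 1 / k)) := by
    calc (maxRank K n : ℝ) * (D * (Y * Z)) ≤
        (Q * (2 * ρ) * (k ^ (d - 1) + k)) * (D * (Y * Z)) := by
          apply mul_le_mul_of_nonneg_right hN (by positivity)
      _ = P * (ρ * D) * (k ^ (d - 1) + k) := by rw [hPsplit]; ring
      _ ≤ P * (Y * Z + D) * (k ^ (d - 1) + k) := by
          apply mul_le_mul_of_nonneg_right _ (by positivity)
          exact mul_le_mul_of_nonneg_left hρ' hPpos.le
      _ ≤ _ := by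
          apply mul_le_mul_of_nonneg_left hkpow (by positivity)
  -- bounds
  have b1 : k ^ d * P ≤ (1 + 2 * k * x) ^ d * Pn := by
    have e : k ^ d * P = ∏ i, (k * (2 * (h i : ℝ))) := by
      rw [Finset.prod_mul_distrib, Finset.prod_const, Finset.card_univ, Fintype.card_fin]
    have e2 : (1 + 2 * k * x) ^ d * Pn = ∏ i, ((1 + 2 * k * x) * (n i : ℝ)) := by
      rw [Finset.prod_mul_distrib, Finset.prod_const, Finset.card_univ, Fintype.card_fin]
    rw [e, e2]
    apply Finset.prod_le_prod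
    · intro i _; have := hhpos i; positivity
    · intro i _
      have a1 := hh2 i
      have a2 := hn i
      have a3 : 2 * k ≤ 2 * k * (x * n i) := by nlinarith
      nlinarith
  have b2 : (1 - k * x) * S ≤ k * D := by
    have e : k * D = (∑ i, 2 * k * (h i : ℝ)) - k * (d - 1) := by
      have : (∑ i, 2 * k * (h i : ℝ)) = k * ∑ i, 2 * (h i : ℝ) := by
        rw [Finset.mul_sum]; exact Finset.sum_congr rfl fun i _ => by ring
      rw [this, ← hDsum']; ring
    have e2 : S ≤ ∑ i, 2 * k * (h i : ℝ) := Finset.sum_le_sum fun i _ => hh1 i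
    rw [e]
    nlinarith
  have b3 : D ≤ 2 * k * M * x * (Y * Z) := by
    have c1 : k * D ≤ 2 * S := by
      have e : k * D = (∑ i, 2 * k * (h i : ℝ)) - k * (d - 1) := by
        have : (∑ i, 2 * k * (h i : ℝ)) = k * ∑ i, 2 * (h i : ℝ) := by
          rw [Finset.mul_sum]; exact Finset.sum_congr rfl fun i _ => by ring
        rw [this, ← hDsum']; ring
      have e2 : (∑ i, 2 * k * (h i : ℝ)) ≤ ∑ i, ((n i : ℝ) + 2 * k) :=
        Finset.sum_le_sum fun i _ => hh2 i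
      rw [Finset.sum_add_distrib, Finset.sum_const, Finset.card_univ, Fintype.card_fin,
        nsmul_eq_mul] at e2
      have e3 : (d : ℝ) * (2 * k) ≤ S := by
        have : (d : ℝ) * (2 * k) ≤ x * S * (2 * k) :=
          mul_le_mul_of_nonneg_right hdS (by positivity)
        have : x * S * (2 * k) = (2 * k * x) * S := by ring
        nlinarith
      rw [e]
      nlinarith
    have c2 : S ≤ M * n i₁ := hM
    have c3 : (n i₁ : ℝ) ≤ k * Y := by have := hh1 i₁; rw [hY]; linarith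
    have c4 : (n i₂ : ℝ) ≤ k * Z := by have := hh1 i₂; rw [hZ]; linarith
    have c5 : 1 ≤ x * (k * Z) := (hn i₂).trans (mul_le_mul_of_nonneg_left c4 hx.le)
    have hMpos : 0 < M := by
      by_contra hcon
      push Not at hcon
      have := hn0 i₁
      nlinarith
    have c6 : S ≤ M * (k * Y) := c2.trans (mul_le_mul_of_nonneg_left c3 hMpos.le)
    have c7 : M * (k * Y) ≤ M * (k * Y) * (x * (k * Z)) :=
      le_mul_of_one_le_right (by positivity) c5
    have c8 : k * D ≤ k * (2 * k * M * x * (Y * Z)) := by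
      calc k * D ≤ 2 * S := c1
        _ ≤ 2 * (M * (k * Y) * (x * (k * Z))) := by linarith
        _ = _ := by ring
    exact le_of_mul_le_mul_left c8 hkpos
  -- conclusion
  have hden : 0 < 1 - k * x := by linarith
  have step2 : (maxRank K n : ℝ) * D ≤ P * (1 + 2 * k * M * x) * (k ^ (d - 1) * (1 + 1 / k)) := by
    have h3 : P * (Y * Z + D) * (k ^ (d - 1) * (1 + 1 / k)) ≤
        P * (1 + 2 * k * M * x) * (k ^ (d - 1) * (1 + 1 / k)) * (Y * Z) := by
      have : P * (Y * Z + D) ≤ P * ((1 + 2 * k * M * x) * (Y * Z)) := by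
        apply mul_le_mul_of_nonneg_left _ hPpos.le
        linarith
      calc _ ≤ P * ((1 + 2 * k * M * x) * (Y * Z)) * (k ^ (d - 1) * (1 + 1 / k)) :=
            mul_le_mul_of_nonneg_right this (by positivity)
        _ = _ := by ring
    have h4 : ((maxRank K n : ℝ) * D) * (Y * Z) ≤
        (P * (1 + 2 * k * M * x) * (k ^ (d - 1) * (1 + 1 / k))) * (Y * Z) := by
      calc ((maxRank K n : ℝ) * D) * (Y * Z) = (maxRank K n : ℝ) * (D * (Y * Z)) := by ring
        _ ≤ _ := step1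
        _ ≤ _ := h3
    exact le_of_mul_le_mul_right h4 (by positivity)
  have hMx : 0 ≤ 1 + 2 * k * M * x := by
    have : 0 ≤ 2 * k * M * x := by
      have : 0 < D / (Y * Z) := by positivity
      have h5 : (D : ℝ) / (Y * Z) ≤ 2 * k * M * x := by
        rw [div_le_iff₀ (by positivity)]; exact b3
      linarith
    linarith
  have step3 : (maxRank K n : ℝ) * ((1 - k * x) * S) ≤
      (1 + 2 * k * x) ^ d * Pn * (1 + 2 * k * M * x) * (1 + 1 / k) := by
    calc (maxRank K n : ℝ) * ((1 - k * x) * S) ≤ (maxRank K n : ℝ) * (k * D) :=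
          mul_le_mul_of_nonneg_left b2 (Nat.cast_nonneg _)
      _ = k * ((maxRank K n : ℝ) * D) := by ring
      _ ≤ k * (P * (1 + 2 * k * M * x) * (k ^ (d - 1) * (1 + 1 / k))) :=
          mul_le_mul_of_nonneg_left step2 hkpos.le
      _ = (k ^ (d - 1) * k * P) * ((1 + 2 * k * M * x) * (1 + 1 / k)) := by ring
      _ = (k ^ d * P) * ((1 + 2 * k * M * x) * (1 + 1 / k)) := by
          rw [← pow_succ]; congr 4; omega
      _ ≤ ((1 + 2 * k * x) ^ d * Pn) * ((1 + 2 * k * M * x) * (1 + 1 / k)) := by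
          apply mul_le_mul_of_nonneg_right b1
          apply mul_nonneg hMx (by positivity)
      _ = _ := by ring
  rw [div_mul_div_comm, le_div_iff₀ (by positivity)]
  calc _ ≤ _ := step3
    _ = _ := by ring

end Pool.Agent.TH140.MR
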