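import Mathlib

/-!
# Rank of tensors: a criterion for upper bounds of the maximal rank

`pt v` is the rank one tensor with factors `v i`.  If rank one tensors `pt (P k)` sum to zero and
the sum of the tangent spaces at them is everything, then every tensor is a sum of as many rank one
tensors (the sum map is open near the relation, and the rank is invariant under scaling).
-/

set_option autoImplicit false

open Function

namespace Pool.Agent.TH140.MR

variable {K : Type*} {ι : Type*} [Fintype ι] {α : ι → Type*}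

/-- The decomposable tensor with the factors `v i`. -/
def pt [CommMonoid K] (v : ∀ i, α i → K) : (∀ i, α i) → K := fun x => ∏ i, v i (x i)

/-- `T` is a sum of `N` decomposable tensors. -/
def RankLE [CommSemiring K] (N : ℕ) (T : (∀ i, α i) → K) : Prop :=
  ∃ v : Fin N → ∀ i, α i → K, T = fun x => ∑ k, ∏ i, v k i (x i)

/-- The tangent spaces at the points `pt (P k)` span the space of tensors. -/
def Spans [Field K] [DecidableEq ι] {κ : Type*} (P : κ → ∀ i, α i → K) : Prop :=
  Submodule.span K {T : (∀ i, α i) → K | ∃ k i w, T = pt (update (P k) i w)} = ⊤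

theorem pt_update [CommMonoid K] [DecidableEq ι] (v : ∀ i, α i → K) (i : ι) (w : α i → K)
    (x : ∀ i, α i) :
    pt (update v i w) x = w (x i) * ∏ j ∈ Finset.univ.erase i, v j (x j) := by
  unfold pt
  rw [← Finset.mul_prod_erase Finset.univ _ (Finset.mem_univ i), update_self]
  congr 1
  refine Finset.prod_congr rfl fun j hj => ?_
  rw [update_of_ne (Finset.ne_of_mem_erase hj)]

theorem rankLE_of_card [CommSemiring K] {κ : Type*} [Fintype κ] (v : κ → ∀ i, α i → K)
    (T : (∀ i, α i) → K) (h : ∀ x, T x = ∑ k, ∏ i, v k i (x i)) : RankLE (Fintype.card κ) T := by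
  refine ⟨fun k => v ((Fintype.equivFin κ).symm k), ?_⟩
  funext x
  rw [h x]
  exact (Equiv.sum_comp (Fintype.equivFin κ).symm (fun k => ∏ i, v k i (x i))).symm

theorem RankLE.mono [Field K] [Nonempty ι] {N N' : ℕ} (h : N ≤ N')
    {T : (∀ i, α i) → K} (hT : RankLE N T) : RankLE N' T := by
  classical
  obtain ⟨v, hv⟩ := hT
  obtain ⟨i₀⟩ := ‹Nonempty ι›
  refine ⟨fun k => if hk : k.1 < N then v ⟨k.1, hk⟩ else fun _ _ => 0, ?_⟩
  rw [hv]
  funext x
  obtain ⟨c, rfl⟩ := Nat.exists_eq_add_of_le h
  rw [Fin.sum_univ_add]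
  have h2 : (∑ k : Fin c, ∏ i, (if hk : (Fin.natAdd N k).1 < N then v ⟨(Fin.natAdd N k).1, hk⟩
      else fun _ _ => 0) i (x i)) = 0 := by
    apply Finset.sum_eq_zero
    intro k _
    apply Finset.prod_eq_zero (Finset.mem_univ i₀)
    have : ¬ (Fin.natAdd N k).1 < N := by simp
    rw [dif_neg this]
  rw [h2, add_zero]
  refine Finset.sum_congr rfl fun k _ => ?_
  have : (Fin.castAdd c k).1 < N := k.2
  simp only [dif_pos this]
  rfl

section analytic

variable [RCLike K] [DecidableEq ι] {κ : Type*} [Fintype κ] [∀ i, Fintype (α i)]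

/-- The sum of decomposable tensors as a function of the factors. -/
def phi (p : κ → ∀ i, α i → K) : (∀ i, α i) → K := fun x => ∑ k, ∏ i, p k i (x i)

/-- The derivative of `phi`. -/
noncomputable def dphi (P : κ → ∀ i, α i → K) : (κ → ∀ i, α i → K) →L[K] ((∀ i, α i) → K) :=
  ContinuousLinearMap.pi fun x => ∑ k, ∑ i, (∏ j ∈ Finset.univ.erase i, P k j (x j)) •
    ((ContinuousLinearMap.proj (x i) : (α i → K) →L[K] K).comp
      ((ContinuousLinearMap.proj i : (∀ i, α i → K) →L[K] (α i → K)).comp
        (ContinuousLinearMap.proj k : (κ → ∀ i, α i → K) →L[K] (∀ i, α i → K))))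

theorem hasStrictFDerivAt_phi (P : κ → ∀ i, α i → K) :
    HasStrictFDerivAt (phi (K := K) (α := α) (κ := κ)) (dphi P) P := by
  rw [hasStrictFDerivAt_pi']
  intro x
  have h1 : ∀ k ∈ (Finset.univ : Finset κ), HasStrictFDerivAt
      (fun p : κ → ∀ i, α i → K => ∏ i, p k i (x i))
      (∑ i, (∏ j ∈ Finset.univ.erase i, P k j (x j)) •
        ((ContinuousLinearMap.proj (x i) : (α i → K) →L[K] K).comp
          ((ContinuousLinearMap.proj i : (∀ i, α i → K) →L[K] (α i → K)).comp
            (ContinuousLinearMap.proj k : (κ → ∀ i, α i → K) →L[K] (∀ i, α i → K))))) P := by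
    intro k _
    refine HasStrictFDerivAt.finsetProd (u := Finset.univ)
      (g := fun i (p : κ → ∀ i, α i → K) => p k i (x i)) ?_
    intro i _
    exact ((ContinuousLinearMap.proj (x i) : (α i → K) →L[K] K).comp
          ((ContinuousLinearMap.proj i : (∀ i, α i → K) →L[K] (α i → K)).comp
            (ContinuousLinearMap.proj k :
              (κ → ∀ i, α i → K) →L[K] (∀ i, α i → K)))).hasStrictFDerivAt
  exact HasStrictFDerivAt.fun_sum h1

theorem range_dphi (P : κ → ∀ i, α i → K) (hP : Spans P) : (dphi P).range = ⊤ := by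
  classical
  rw [eq_top_iff, ← hP, Submodule.span_le]
  rintro T ⟨k, i, w, rfl⟩
  refine ⟨Pi.single k (Pi.single i w), ?_⟩
  funext x
  rw [pt_update]
  change (dphi P) (Pi.single k (Pi.single i w)) x = _
  simp only [dphi, ContinuousLinearMap.coe_pi', _root_.sum_apply,
    _root_.smul_apply, ContinuousLinearMap.comp_apply,
    ContinuousLinearMap.proj_apply, smul_eq_mul]
  rw [Finset.sum_eq_single k, Finset.sum_eq_single i]
  · simp [mul_comm]
  · intro j _ hj
    simp [Pi.single_eq_of_ne hj]
  · intro h; exact absurd (Finset.mem_univ _) h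
  · intro k' _ hk
    simp [Pi.single_eq_of_ne hk]
  · intro h; exact absurd (Finset.mem_univ _) h

/-- **Criterion.** A vanishing sum of decomposable tensors such that the sum of the tangent spaces
is everything bounds the rank of all tensors. -/
theorem rankLE_of_relation [Nonempty ι] (P : κ → ∀ i, α i → K) (hP : Spans P)
    (h0 : ∀ x : (∀ i, α i), ∑ k, ∏ i, P k i (x i) = 0) (T : (∀ i, α i) → K) :
    RankLE (Fintype.card κ) T := by
  obtain ⟨i₀⟩ := ‹Nonempty ι›
  have h1 : Filter.map phi (nhds P) = nhds (phi P) :=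
    (hasStrictFDerivAt_phi P).map_nhds_eq_of_surj (range_dphi P hP)
  have h2 : phi P = 0 := funext h0
  have h3 : Set.range (phi (K := K) (α := α) (κ := κ)) ∈ nhds (0 : (∀ i, α i) → K) := by
    rw [← h2, ← h1]
    exact Filter.mem_map.2 (Filter.mem_of_superset Filter.univ_mem fun p _ => ⟨p, rfl⟩)
  have h4 : Filter.Tendsto (fun t : K => t • T) (nhds 0) (nhds 0) := by
    have : Continuous (fun t : K => t • T) := continuous_id.smul continuous_const
    simpa using this.tendsto 0
  have h5 : ∀ᶠ t : K in nhds 0, t • T ∈ Set.range (phi (K := K) (α := α) (κ := κ)) := h4 h3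
  have h6 : ∀ᶠ t : K in nhdsWithin 0 {0}ᶜ, t • T ∈ Set.range (phi (K := K) (α := α) (κ := κ)) :=
    h5.filter_mono nhdsWithin_le_nhds
  obtain ⟨t, ht, ht0⟩ := (h6.and self_mem_nhdsWithin).exists
  obtain ⟨p, hp⟩ := ht
  have ht0' : t ≠ 0 := ht0
  refine rankLE_of_card (fun k => update (p k) i₀ (t⁻¹ • p k i₀)) T fun x => ?_
  have h7 : t * T x = ∑ k, ∏ i, p k i (x i) := by
    have := congrFun hp x
    simpa [phi] using this.symm
  have h8 : ∀ k, ∏ i, update (p k) i₀ (t⁻¹ • p k i₀) i (x i) = t⁻¹ * ∏ i, p k i (x i) := by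
    intro k
    have := pt_update (p k) i₀ (t⁻¹ • p k i₀) x
    unfold pt at this
    rw [this, ← Finset.mul_prod_erase Finset.univ (fun i => p k i (x i)) (Finset.mem_univ i₀)]
    simp [mul_assoc]
  simp only [h8]
  rw [← Finset.mul_sum, ← h7, inv_mul_cancel_left₀ ht0']

end analytic

end Pool.Agent.TH140.MR
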