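import Pool.Agent.TH140.MR.Basic

/-!
# Blowing up a configuration by a finite group

If the tangent spaces at the decomposable tensors `pt (P k)`, `k ∈ κ`, of format `α` span, then all
tensors of format `α i × G` (`G` a finite abelian group, with enough `±1`-valued characters `χ`) are
sums of `|κ| (|G| ^ (d - 1) + |G|)` decomposable tensors.
-/

set_option autoImplicit false

open Function

namespace Pool.Agent.TH140.MR

variable {K : Type*} [Field K] {ι : Type*} [Fintype ι] [DecidableEq ι] {α : ι → Type*}
  {κ : Type*} {G : Type*} [AddCommGroup G] [Fintype G] [DecidableEq G] {X : Type*}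

/-- Tuples with sum zero. -/
abbrev SumZero (ι G : Type*) [Fintype ι] [AddCommGroup G] := {y : ι → G // ∑ i, y i = 0}

/-- The tuples with sum zero are given by all but one of their entries. -/
def sumZeroEquiv (i₀ : ι) : SumZero ι G ≃ ({j : ι // j ≠ i₀} → G) where
  toFun y j := y.1 j
  invFun z := ⟨fun i => if h : i = i₀ then -∑ j, z j else z ⟨i, h⟩, by
    rw [Fintype.sum_eq_add_sum_subtype_ne _ i₀]
    have : (∑ j : {j : ι // j ≠ i₀}, if h : (j : ι) = i₀ then -∑ j, z j else z ⟨j, h⟩)
        = ∑ j, z j := by
      refine Finset.sum_congr rfl fun j _ => ?_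
      rw [dif_neg j.2]
    rw [this, dif_pos rfl, neg_add_cancel]⟩
  left_inv y := by
    apply Subtype.ext
    funext i
    dsimp only
    split_ifs with h
    · subst h
      have := y.2
      rw [Fintype.sum_eq_add_sum_subtype_ne _ i] at this
      exact (eq_neg_of_add_eq_zero_left this).symm
    · rfl
  right_inv z := by
    funext j
    dsimp only
    rw [dif_neg j.2]

theorem card_sumZero (i₀ : ι) :
    Fintype.card (SumZero ι G) = Fintype.card G ^ (Fintype.card ι - 1) := by
  rw [Fintype.card_congr (sumZeroEquiv (G := G) i₀), Fintype.card_fun]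
  congr 1
  rw [Fintype.card_subtype_compl, Fintype.card_subtype_eq]

/-- The blown up configuration. -/
noncomputable def blow (i₀ : ι) (c : K) (χ : X → G → K) (P : κ → ∀ i, α i → K) :
    (κ × SumZero ι G) ⊕ (κ × X) → ∀ i, α i × G → K
  | Sum.inl ky => fun i ag => P ky.1 i ag.1 * (if ag.2 = ky.2.1 i then 1 else 0)
  | Sum.inr ks => fun i ag => P ks.1 i ag.1 * χ ks.2 ag.2 * (if i = i₀ then -c⁻¹ else 1)

theorem blow_relation [Fintype κ] [Fintype X] (i₀ : ι) (c : K) (hc : c ≠ 0) (χ : X → G → K)
    (hχ : ∀ y : ι → G, ∑ s, ∏ i, χ s (y i) = if ∑ i, y i = 0 then c else 0)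
    (P : κ → ∀ i, α i → K) (x : ∀ i, α i × G) :
    ∑ k, ∏ i, blow i₀ c χ P k i (x i) = 0 := by
  rw [Fintype.sum_sum_type, Fintype.sum_prod_type, Fintype.sum_prod_type, ← Finset.sum_add_distrib]
  apply Finset.sum_eq_zero
  intro k _
  have h1 : ∀ y : SumZero ι G, (∏ i, blow i₀ c χ P (Sum.inl (k, y)) i (x i)) =
      (∏ i, P k i (x i).1) * (if (fun i => (x i).2) = y.1 then 1 else 0) := by
    intro y
    simp only [blow]
    rw [Finset.prod_mul_distrib]
    congr 1
    rw [Finset.prod_ite_zero]
    simp only [Finset.mem_univ, true_imp_iff, Finset.prod_const_one]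
    congr 1
    rw [funext_iff]
  have h2 : ∀ s : X, (∏ i, blow i₀ c χ P (Sum.inr (k, s)) i (x i)) =
      (∏ i, P k i (x i).1) * ((∏ i, χ s (x i).2) * (-c⁻¹)) := by
    intro s
    simp only [blow]
    rw [Finset.prod_mul_distrib, Finset.prod_mul_distrib, Finset.prod_ite_eq']
    simp [mul_assoc]
  simp only [h1, h2]
  rw [← Finset.mul_sum, ← Finset.mul_sum, ← mul_add, ← Finset.sum_mul, hχ]
  by_cases h : ∑ i, (x i).2 = 0
  · rw [if_pos h, Finset.sum_eq_single (⟨fun i => (x i).2, h⟩ : SumZero ι G)]
    · simp [hc]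
    · intro y _ hy
      rw [if_neg]
      intro h'
      exact hy (Subtype.ext h'.symm)
    · intro h'; exact absurd (Finset.mem_univ _) h'
  · rw [if_neg h, Finset.sum_eq_zero]
    · simp
    · intro y _
      rw [if_neg]
      rintro h'
      exact h (h' ▸ y.2)

/-- Extension of a tensor to the cell `g`. -/
def cell (K : Type*) [Field K] {α : ι → Type*} (g : ι → G) :
    ((∀ i, α i) → K) →ₗ[K] ((∀ i, α i × G) → K) where
  toFun S x := if (fun i => (x i).2) = g then S (fun i => (x i).1) else 0
  map_add' S T := by funext x; simp only [Pi.add_apply]; split_ifs <;> simp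
  map_smul' a S := by funext x; simp only [Pi.smul_apply, RingHom.id_apply]; split_ifs <;> simp

theorem blow_spans (i₀ : ι) (c : K) (χ : X → G → K) (P : κ → ∀ i, α i → K) (hP : Spans P) :
    Spans (blow i₀ c χ P) := by
  classical
  unfold Spans
  rw [eq_top_iff]
  rintro T -
  have hT : T = ∑ g : ι → G, cell K g (fun a => T fun i => (a i, g i)) := by
    funext x
    rw [Finset.sum_apply, Finset.sum_eq_single (fun i => (x i).2)]
    · simp [cell]
    · intro g _ hg
      simp only [cell, LinearMap.coe_mk, AddHom.coe_mk]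
      rw [if_neg (fun h => hg h.symm)]
    · intro h; exact absurd (Finset.mem_univ _) h
  rw [hT]
  refine Submodule.sum_mem _ fun g _ => ?_
  have h1 : (fun a => T fun i => (a i, g i)) ∈ Submodule.span K
      {T : (∀ i, α i) → K | ∃ k i w, T = pt (update (P k) i w)} := by
    have := hP
    unfold Spans at this
    rw [this]; trivial
  have h2 := Submodule.mem_map_of_mem (f := cell K (α := α) g) h1
  rw [Submodule.map_span] at h2
  refine Submodule.span_mono ?_ h2
  rintro _ ⟨_, ⟨k, i, w, rfl⟩, rfl⟩
  refine ⟨Sum.inl (k, ⟨update g i (g i - ∑ j, g j), ?_⟩), i,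
    fun ag => w ag.1 * (if ag.2 = g i then 1 else 0), ?_⟩
  · rw [← Finset.add_sum_erase Finset.univ _ (Finset.mem_univ i), update_self]
    have : ∑ j ∈ Finset.univ.erase i, update g i (g i - ∑ j, g j) j
        = ∑ j ∈ Finset.univ.erase i, g j :=
      Finset.sum_congr rfl fun j hj => update_of_ne (Finset.ne_of_mem_erase hj) _ _
    rw [this, ← Finset.add_sum_erase Finset.univ g (Finset.mem_univ i)]
    abel
  · funext x
    rw [pt_update]
    simp only [cell, LinearMap.coe_mk, AddHom.coe_mk, blow]
    rw [pt_update, Finset.prod_mul_distrib]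
    have h3 : ∏ j ∈ Finset.univ.erase i, (if (x j).2 = update g i (g i - ∑ j, g j) j
        then (1 : K) else 0) = if ∀ j ∈ Finset.univ.erase i, (x j).2 = g j then 1 else 0 := by
      rw [Finset.prod_ite_zero, Finset.prod_const_one]
      congr 1
      apply propext
      refine forall₂_congr fun j hj => ?_
      rw [update_of_ne (Finset.ne_of_mem_erase hj)]
    rw [h3]
    by_cases h : (fun i => (x i).2) = g
    · rw [if_pos h, if_pos (congrFun h i), if_pos (fun j _ => congrFun h j)]
      ring
    · rw [if_neg h]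
      by_cases hi : (x i).2 = g i
      · have : ¬ ∀ j ∈ Finset.univ.erase i, (x j).2 = g j := by
          intro h'
          apply h
          funext j
          by_cases hj : j = i
          · rw [hj]; exact hi
          · exact h' j (Finset.mem_erase.2 ⟨hj, Finset.mem_univ _⟩)
        rw [if_neg this]; ring
      · rw [if_neg hi]; ring

end Pool.Agent.TH140.MR
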