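import Pool.Agent.TH140.MR.Blowup

/-!
# The characters of an elementary abelian 2-group
-/

set_option autoImplicit false

open Function

namespace Pool.Agent.TH140.MR

variable {K : Type*} [Field K] {ι : Type*} [Fintype ι]

/-- The sign character of `ZMod 2`. -/
def sgn (K : Type*) [Field K] (v : ZMod 2) : K := if v = 0 then 1 else -1

theorem sgn_add (a b : ZMod 2) : sgn K (a + b) = sgn K a * sgn K b := by
  unfold sgn
  have h : ∀ a b : ZMod 2, (a = 0 ∧ b = 0 ∧ a + b = 0) ∨ (a = 0 ∧ b ≠ 0 ∧ a + b ≠ 0) ∨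
      (a ≠ 0 ∧ b = 0 ∧ a + b ≠ 0) ∨ (a ≠ 0 ∧ b ≠ 0 ∧ a + b = 0) := by decide
  rcases h a b with ⟨h1, h2, h3⟩ | ⟨h1, h2, h3⟩ | ⟨h1, h2, h3⟩ | ⟨h1, h2, h3⟩
  · rw [if_pos h1, if_pos h2, if_pos h3]; ring
  · rw [if_pos h1, if_neg h2, if_neg h3]; ring
  · rw [if_neg h1, if_pos h2, if_neg h3]; ring
  · rw [if_neg h1, if_neg h2, if_pos h3]; ring

omit [Fintype ι] in
theorem sgn_sum (s : Finset ι) (y : ι → ZMod 2) : sgn K (∑ i ∈ s, y i) = ∏ i ∈ s, sgn K (y i) := by
  classical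
  induction s using Finset.induction_on with
  | empty => simp [sgn]
  | insert a s ha ih => rw [Finset.sum_insert ha, Finset.prod_insert ha, sgn_add, ih]

theorem one_add_sgn (v : ZMod 2) : (1 : K) + sgn K v = if v = 0 then 2 else 0 := by
  unfold sgn
  split_ifs <;> norm_num

/-- The characters of `(ZMod 2) ^ l`. -/
def chi (K : Type*) [Field K] {l : ℕ} (s g : Fin l → ZMod 2) : K :=
  ∏ t, if s t = 0 then 1 else sgn K (g t)

theorem sum_chi {l : ℕ} (y : ι → (Fin l → ZMod 2)) :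
    ∑ s : Fin l → ZMod 2, ∏ i, chi K s (y i) = if ∑ i, y i = 0 then (2 : K) ^ l else 0 := by
  have h1 : ∀ s : Fin l → ZMod 2, ∏ i, chi K s (y i) =
      ∏ t, ∏ i, (if s t = 0 then 1 else sgn K (y i t)) := by
    intro s
    unfold chi
    rw [Finset.prod_comm]
  simp only [h1]
  have h2 := Finset.prod_univ_sum (fun _ : Fin l => (Finset.univ : Finset (ZMod 2)))
    (fun t u => ∏ i, (if u = 0 then (1 : K) else sgn K (y i t)))
  rw [Fintype.piFinset_univ] at h2
  rw [← h2]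
  have h3 : ∀ t : Fin l, ∑ u : ZMod 2, ∏ i, (if u = 0 then (1 : K) else sgn K (y i t)) =
      if ∑ i, y i t = 0 then 2 else 0 := by
    intro t
    rw [← one_add_sgn, sgn_sum]
    have : (Finset.univ : Finset (ZMod 2)) = {0, 1} := rfl
    rw [this, Finset.sum_pair (by decide)]
    simp
  simp only [h3]
  rw [Finset.prod_ite_zero]
  simp only [Finset.mem_univ, true_imp_iff, Finset.prod_const, Finset.card_univ, Fintype.card_fin]
  congr 1
  rw [funext_iff]
  simp

/-- Blowing up by `(ZMod 2) ^ l`: bound for the rank of all tensors. -/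
theorem rankLE_blow {K : Type*} [RCLike K] [DecidableEq ι] [Nonempty ι] {α : ι → Type*}
    [∀ i, Fintype (α i)]
    {κ : Type*} [Fintype κ] (P : κ → ∀ i, α i → K) (hP : Spans P) (l : ℕ)
    (T : (∀ i, α i × (Fin l → ZMod 2)) → K) :
    RankLE (Fintype.card κ * ((2 ^ l) ^ (Fintype.card ι - 1) + 2 ^ l)) T := by
  classical
  obtain ⟨i₀⟩ := ‹Nonempty ι›
  have h := rankLE_of_relation (blow i₀ ((2 : K) ^ l) (chi K (l := l)) P)
    (blow_spans i₀ _ _ P hP)
    (fun x => blow_relation i₀ _ (pow_ne_zero _ two_ne_zero) _ (fun y => by rw [sum_chi]) P x) T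
  have hc : Fintype.card ((κ × SumZero ι (Fin l → ZMod 2)) ⊕ (κ × (Fin l → ZMod 2))) =
      Fintype.card κ * ((2 ^ l) ^ (Fintype.card ι - 1) + 2 ^ l) := by
    rw [Fintype.card_sum, Fintype.card_prod, Fintype.card_prod, card_sumZero i₀, Fintype.card_fun,
      ZMod.card, Fintype.card_fin, mul_add]
  rw [hc] at h
  exact h

end Pool.Agent.TH140.MR
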