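import Mathlib

/-!
# Generic choice of parameters
-/

set_option autoImplicit false

open Function

namespace Pool.Agent.TH140.MR

variable {K : Type*} [Field K] {σ : Type*}

theorem exists_common [Infinite K] {Λ : Type*} [Fintype Λ] (D : Λ → MvPolynomial σ K)
    (h : ∀ a, D a ≠ 0) : ∃ c : σ → K, ∀ a, MvPolynomial.eval c (D a) ≠ 0 := by
  by_contra hcon
  push Not at hcon
  have h1 : ∏ a, D a = 0 := by
    apply MvPolynomial.funext
    intro c
    rw [map_prod, map_zero]
    obtain ⟨a, ha⟩ := hcon c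
    exact Finset.prod_eq_zero (Finset.mem_univ a) ha
  rw [Finset.prod_eq_zero_iff] at h1
  obtain ⟨a, -, ha⟩ := h1
  exact h a ha

theorem exists_poly {B Gen : Type*} [Fintype B] [DecidableEq B] [Fintype Gen]
    (M : Gen → B → MvPolynomial σ K) (c₀ : σ → K)
    (h : Submodule.span K (Set.range fun g b => MvPolynomial.eval c₀ (M g b)) = ⊤) :
    ∃ D : MvPolynomial σ K, D ≠ 0 ∧ ∀ c : σ → K, MvPolynomial.eval c D ≠ 0 →
      Submodule.span K (Set.range fun g b => MvPolynomial.eval c (M g b)) = ⊤ := by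
  have h1 : ∀ b : B, ∃ r : Gen → K, ∑ g, r g • (fun b' => MvPolynomial.eval c₀ (M g b')) =
      (Pi.single b 1 : B → K) := by
    intro b
    rw [← Submodule.mem_span_range_iff_exists_fun, h]
    trivial
  choose R hR using h1
  let MM : Matrix B Gen (MvPolynomial σ K) := Matrix.of fun b g => M g b
  let RR : Matrix Gen B K := Matrix.of fun g b => R b g
  let RC : Matrix Gen B (MvPolynomial σ K) := RR.map MvPolynomial.C
  let PP : Matrix B B (MvPolynomial σ K) := MM * RC
  let Mc : (σ → K) → Matrix B Gen K := fun c => MM.map (MvPolynomial.eval c)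
  let Pc : (σ → K) → Matrix B B K := fun c => Mc c * RR
  have hev : ∀ c, MvPolynomial.eval c PP.det = (Pc c).det := by
    intro c
    rw [RingHom.map_det, RingHom.mapMatrix_apply]
    congr 1
    ext b b'
    simp only [PP, Pc, Mc, RC, Matrix.map_apply, Matrix.mul_apply, map_sum, map_mul,
      MvPolynomial.eval_C]
  refine ⟨PP.det, ?_, ?_⟩
  · intro h0
    have h2 := hev c₀
    have h3 : Pc c₀ = 1 := by
      ext b b'
      have := congrFun (hR b') b
      simp only [Finset.sum_apply, Pi.smul_apply, smul_eq_mul] at this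
      simp only [Pc, Mc]
      rw [Matrix.mul_apply, Matrix.one_apply]
      simp only [Matrix.map_apply, MM, RR, Matrix.of_apply]
      rw [Pi.single_apply] at this
      rw [← this]
      exact Finset.sum_congr rfl fun g _ => mul_comm _ _
    rw [h0, h3, map_zero, Matrix.det_one] at h2
    exact zero_ne_one h2
  · intro c hc
    rw [hev c] at hc
    rw [eq_top_iff]
    rintro v -
    have hu : IsUnit (Pc c).det := isUnit_iff_ne_zero.2 hc
    have h5 : (Pc c) * (Pc c)⁻¹ = 1 := Matrix.mul_nonsing_inv _ hu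
    have h4 : v = (Mc c).mulVec (RR.mulVec ((Pc c)⁻¹.mulVec v)) := by
      have h6 : (Mc c).mulVec (RR.mulVec ((Pc c)⁻¹.mulVec v)) = ((Pc c) * (Pc c)⁻¹).mulVec v := by
        rw [Matrix.mulVec_mulVec, Matrix.mulVec_mulVec]
      rw [h6, h5, Matrix.one_mulVec]
    rw [h4, Submodule.mem_span_range_iff_exists_fun]
    refine ⟨RR.mulVec ((Pc c)⁻¹.mulVec v), ?_⟩
    funext b
    simp only [Finset.sum_apply, Pi.smul_apply, smul_eq_mul]
    rw [Matrix.mulVec, dotProduct]
    exact Finset.sum_congr rfl fun g _ => mul_comm _ _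

end Pool.Agent.TH140.MR
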