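import Mathlib

/-!
# The local configuration in `K² ⊗ K^Y ⊗ K^Z`
-/

set_option autoImplicit false

open Function

namespace Pool.Agent.TH140.MR

variable {K : Type*} [Field K] {Y Z : Type*}

/-- The decomposable tensor `a ⊗ b ⊗ c`. -/
def tri {R : Type*} [Mul R] (a : Fin 2 → R) (b : Y → R) (c : Z → R) : Fin 2 × Y × Z → R :=
  fun p => a p.1 * b p.2.1 * c p.2.2

theorem tri_add (a a' : Fin 2 → K) (b : Y → K) (c : Z → K) :
    tri (a + a') b c = tri a b c + tri a' b c := by
  funext p; simp only [tri, Pi.add_apply]; ring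

theorem tri_smul (t : K) (a : Fin 2 → K) (b : Y → K) (c : Z → K) :
    tri (t • a) b c = t • tri a b c := by
  funext p; simp only [tri, Pi.smul_apply, smul_eq_mul]; ring

theorem tri_add_mid (a : Fin 2 → K) (b b' : Y → K) (c : Z → K) :
    tri a (b + b') c = tri a b c + tri a b' c := by
  funext p; simp only [tri, Pi.add_apply]; ring

theorem tri_add_right (a : Fin 2 → K) (b : Y → K) (c c' : Z → K) :
    tri a b (c + c') = tri a b c + tri a b c' := by
  funext p; simp only [tri, Pi.add_apply]; ring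

theorem tri_mem_of_two (S : Submodule K (Fin 2 × Y × Z → K)) {t t' : K} (h : t ≠ t')
    {b : Y → K} {c : Z → K} (h1 : tri ![1, t] b c ∈ S) (h2 : tri ![1, t'] b c ∈ S)
    (V : Fin 2 → K) : tri V b c ∈ S := by
  have hne : t' - t ≠ 0 := sub_ne_zero.2 (Ne.symm h)
  have hV : V = ((t' * V 0 - V 1) / (t' - t)) • ![1, t] + ((V 1 - t * V 0) / (t' - t)) • ![1, t'] := by
    funext i
    fin_cases i
    · simp; field_simp; ring
    · simp; field_simp; ring
  rw [hV, tri_add, tri_smul, tri_smul]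
  exact S.add_mem (S.smul_mem _ h1) (S.smul_mem _ h2)

theorem tri_mem_of_basis (S : Submodule K (Fin 2 × Y × Z → K))
    {b : Y → K} {c : Z → K} (h1 : tri ![1, 0] b c ∈ S) (h2 : tri ![0, 1] b c ∈ S)
    (V : Fin 2 → K) : tri V b c ∈ S := by
  have hV : V = V 0 • ![1, 0] + V 1 • ![0, 1] := by
    funext i
    fin_cases i <;> simp
  rw [hV, tri_add, tri_smul, tri_smul]
  exact S.add_mem (S.smul_mem _ h1) (S.smul_mem _ h2)

/-- The units that have to be covered by the tangent vectors at points of other blocks. -/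
abbrev Units' (ρ y z : ℕ) := (Fin ρ × Fin z) ⊕ (Fin y × Fin ρ) ⊕ (Fin y × Fin z)

variable {ρ y z : ℕ} [DecidableEq Y] [DecidableEq Z]

section defs

variable (eY : (Bool × Fin ρ) ⊕ Fin y ≃ Y) (eZ : (Bool × Fin ρ) ⊕ Fin z ≃ Z) (τ : Bool × Fin ρ → K)

variable (K) in
/-- second factor, one full vector -/
def bU : Units' ρ y z → Y → K
  | Sum.inl tz => Pi.single (eY (Sum.inl (false, tz.1))) 1 + Pi.single (eY (Sum.inl (true, tz.1))) 1
  | Sum.inr (Sum.inl yt) => Pi.single (eY (Sum.inr yt.1)) 1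
  | Sum.inr (Sum.inr yz) => Pi.single (eY (Sum.inr yz.1)) 1

variable (K) in
/-- third factor, one full vector -/
def cU : Units' ρ y z → Z → K
  | Sum.inl tz => Pi.single (eZ (Sum.inr tz.2)) 1
  | Sum.inr (Sum.inl yt) =>
      Pi.single (eZ (Sum.inl (false, yt.2))) 1 + Pi.single (eZ (Sum.inl (true, yt.2))) 1
  | Sum.inr (Sum.inr yz) => Pi.single (eZ (Sum.inr yz.2)) 1

/-- first factor, two vectors -/
def a2 : Units' ρ y z → Bool → Fin 2 → K
  | Sum.inl tz, β => ![1, τ (!β, tz.1)]
  | Sum.inr (Sum.inl yt), β => ![1, τ (!β, yt.2)]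
  | Sum.inr (Sum.inr _), β => if β then ![1, 0] else ![0, 1]

variable (K) in
/-- second factor, two vectors -/
def b2 : Units' ρ y z → Bool → Y → K
  | Sum.inl tz, β => Pi.single (eY (Sum.inl (β, tz.1))) 1
  | Sum.inr (Sum.inl yt), _ => Pi.single (eY (Sum.inr yt.1)) 1
  | Sum.inr (Sum.inr yz), _ => Pi.single (eY (Sum.inr yz.1)) 1

variable (K) in
/-- third factor, two vectors -/
def c2 : Units' ρ y z → Bool → Z → K
  | Sum.inl tz, _ => Pi.single (eZ (Sum.inr tz.2)) 1
  | Sum.inr (Sum.inl yt), β => Pi.single (eZ (Sum.inl (β, yt.2))) 1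
  | Sum.inr (Sum.inr yz), _ => Pi.single (eZ (Sum.inr yz.2)) 1

end defs

theorem local_top [Fintype Y] [Fintype Z] (eY : (Bool × Fin ρ) ⊕ Fin y ≃ Y)
    (eZ : (Bool × Fin ρ) ⊕ Fin z ≃ Z)
    (τ : Bool × Fin ρ → K) (hτ : Injective τ) (S : Submodule K (Fin 2 × Y × Z → K))
    (h1 : ∀ j q, tri ![1, τ j] (Pi.single q 1) (Pi.single (eZ (Sum.inl j)) 1) ∈ S)
    (h2 : ∀ j q, tri ![1, τ j] (Pi.single (eY (Sum.inl j)) 1) (Pi.single q 1) ∈ S)
    (h3 : ∀ j V, tri V (Pi.single (eY (Sum.inl j)) 1) (Pi.single (eZ (Sum.inl j)) 1) ∈ S)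
    (hU : ∀ u : Units' ρ y z, (∀ V, tri V (bU K eY u) (cU K eZ u) ∈ S) ∨
      (∀ β, tri (a2 τ u β) (b2 K eY u β) (c2 K eZ u β) ∈ S)) : S = ⊤ := by
  have key : ∀ (V : Fin 2 → K) p q, tri V (Pi.single p 1) (Pi.single q 1) ∈ S := by
    intro V p q
    obtain ⟨p, rfl⟩ := eY.surjective p
    obtain ⟨q, rfl⟩ := eZ.surjective q
    rcases p with j | p
    · rcases q with j' | q
      · by_cases hj : j = j'
        · subst hj; exact h3 j V
        · exact tri_mem_of_two S (hτ.ne hj) (h2 j _) (h1 j' _) V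
      · obtain ⟨β, t⟩ := j
        have hne : τ (β, t) ≠ τ (!β, t) := hτ.ne (by simp)
        refine tri_mem_of_two S hne (h2 _ _) ?_ V
        rcases hU (Sum.inl (t, q)) with h | h
        · have h4 := h ![1, τ (!β, t)]
          simp only [bU, cU] at h4
          rw [tri_add_mid] at h4
          cases β
          · simp only [Bool.not_false] at h4 ⊢
            exact (S.add_mem_iff_left (h2 _ _)).1 h4
          · simp only [Bool.not_true] at h4 ⊢
            exact (S.add_mem_iff_right (h2 _ _)).1 h4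
        · exact h β
    · rcases q with j | q
      · obtain ⟨β, t⟩ := j
        have hne : τ (β, t) ≠ τ (!β, t) := hτ.ne (by simp)
        refine tri_mem_of_two S hne (h1 _ _) ?_ V
        rcases hU (Sum.inr (Sum.inl (p, t))) with h | h
        · have h4 := h ![1, τ (!β, t)]
          simp only [bU, cU] at h4
          rw [tri_add_right] at h4
          cases β
          · simp only [Bool.not_false] at h4 ⊢
            exact (S.add_mem_iff_left (h1 _ _)).1 h4
          · simp only [Bool.not_true] at h4 ⊢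
            exact (S.add_mem_iff_right (h1 _ _)).1 h4
        · exact h β
      · rcases hU (Sum.inr (Sum.inr (p, q))) with h | h
        · exact h V
        · exact tri_mem_of_basis S (h true) (h false) V
  rw [eq_top_iff]
  rintro T -
  have hT : T = ∑ p : Y, ∑ q : Z, tri (fun s => T (s, p, q)) (Pi.single p 1) (Pi.single q 1) := by
    funext x
    obtain ⟨s, p, q⟩ := x
    simp only [Finset.sum_apply, tri]
    rw [Finset.sum_eq_single p, Finset.sum_eq_single q]
    · simp
    · intro q' _ h; simp [Pi.single_eq_of_ne (Ne.symm h)]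
    · intro h; exact absurd (Finset.mem_univ _) h
    · intro p' _ h; simp [Pi.single_eq_of_ne (Ne.symm h)]
    · intro h; exact absurd (Finset.mem_univ _) h
  rw [hT]
  exact S.sum_mem fun p _ => S.sum_mem fun q _ => key _ p q

end Pool.Agent.TH140.MR
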