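import Pool.Agent.TH140.MR.Basic
import Pool.Agent.TH140.MR.Generic
import Pool.Agent.TH140.MR.Local

/-!
# The global configuration

Format `α`, three distinguished slots `i₀, i₁, i₂`; the slot `i₀` is cut into `q` blocks of size two,
the slots different from `i₀, i₁, i₂` are cut completely.  In every location (block and multi-index)
there are `2 ρ` points.
-/

set_option autoImplicit false

open Function

namespace Pool.Agent.TH140.MR

section split

variable {ι : Type*} [Fintype ι] [DecidableEq ι]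

/-- The slots different from three given ones. -/
abbrev Mid (i₀ i₁ i₂ : ι) := {l : ι // l ≠ i₀ ∧ l ≠ i₁ ∧ l ≠ i₂}

theorem prod_split {M : Type*} [CommMonoid M] {i₀ i₁ i₂ : ι} (h01 : i₀ ≠ i₁) (h02 : i₀ ≠ i₂)
    (h12 : i₁ ≠ i₂) (f : ι → M) :
    ∏ i, f i = f i₀ * f i₁ * f i₂ * ∏ l : Mid i₀ i₁ i₂, f l := by
  have h : (Finset.univ : Finset ι) = insert i₀ (insert i₁ (insert i₂
      (Finset.univ.filter fun l => l ≠ i₀ ∧ l ≠ i₁ ∧ l ≠ i₂))) := by
    ext l
    simp only [Finset.mem_univ, Finset.mem_insert, Finset.mem_filter, true_and, true_iff]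
    tauto
  have h3 : ∏ l ∈ Finset.univ.filter (fun l => l ≠ i₀ ∧ l ≠ i₁ ∧ l ≠ i₂), f l =
      ∏ l : Mid i₀ i₁ i₂, f l := Finset.prod_subtype _ (by intro x; simp) f
  rw [h, Finset.prod_insert (by simp [h01, h02]), Finset.prod_insert (by simp [h12]),
    Finset.prod_insert (by simp), h3]
  simp only [mul_assoc]

end split

variable {K : Type*} [Field K] {ι : Type*} [Fintype ι] [DecidableEq ι] {α : ι → Type*}
  [∀ i, Fintype (α i)] [∀ i, DecidableEq (α i)] {i₀ i₁ i₂ : ι}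

variable (α i₀ i₁ i₂) in
/-- Locations. -/
abbrev Loc (q : ℕ) := Fin q × (∀ l : Mid i₀ i₁ i₂, α l)

variable (α i₀ i₁ i₂) in
/-- Indices of the points. -/
abbrev PIx (q ρ : ℕ) := Loc α i₀ i₁ i₂ q × (Bool × Fin ρ)

variable (α i₀ i₁ i₂) in
/-- Parameters. -/
abbrev Var (q ρ : ℕ) := PIx α i₀ i₁ i₂ q ρ × (Fin 2 ⊕ α i₁ ⊕ α i₂)

section vec

variable {R : Type*} {q ρ : ℕ}

/-- The vector in the block. -/
def vecA (cfg : Var α i₀ i₁ i₂ q ρ → R) (p : PIx α i₀ i₁ i₂ q ρ) : Fin 2 → R :=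
  fun s => cfg (p, Sum.inl s)

/-- The factor in the slot `i₁`. -/
def vecB (cfg : Var α i₀ i₁ i₂ q ρ → R) (p : PIx α i₀ i₁ i₂ q ρ) : α i₁ → R :=
  fun s => cfg (p, Sum.inr (Sum.inl s))

/-- The factor in the slot `i₂`. -/
def vecC (cfg : Var α i₀ i₁ i₂ q ρ → R) (p : PIx α i₀ i₁ i₂ q ρ) : α i₂ → R :=
  fun s => cfg (p, Sum.inr (Sum.inr s))

variable (α i₀ i₁ i₂ q ρ) in
/-- Indices of the local generators. -/
abbrev Gen := ((Bool × Fin ρ) × α i₁) ⊕ ((Bool × Fin ρ) × α i₂) ⊕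
  (Fin q × (Bool × Fin ρ) × Fin 2) ⊕ ((Σ l : Mid i₀ i₁ i₂, α l) × (Bool × Fin ρ))

/-- The local generators at a location. -/
def gvec [CommRing R] (cfg : Var α i₀ i₁ i₂ q ρ → R) (lam : Loc α i₀ i₁ i₂ q) :
    Gen α i₀ i₁ i₂ q ρ → Fin 2 × α i₁ × α i₂ → R
  | Sum.inl jy => tri (vecA cfg (lam, jy.1)) (Pi.single jy.2 1) (vecC cfg (lam, jy.1))
  | Sum.inr (Sum.inl jz) => tri (vecA cfg (lam, jz.1)) (vecB cfg (lam, jz.1)) (Pi.single jz.2 1)
  | Sum.inr (Sum.inr (Sum.inl bjs)) => tri (Pi.single bjs.2.2 1)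
      (vecB cfg ((bjs.1, lam.2), bjs.2.1)) (vecC cfg ((bjs.1, lam.2), bjs.2.1))
  | Sum.inr (Sum.inr (Sum.inr lxj)) => tri
      (vecA cfg ((lam.1, update lam.2 lxj.1.1 lxj.1.2), lxj.2))
      (vecB cfg ((lam.1, update lam.2 lxj.1.1 lxj.1.2), lxj.2))
      (vecC cfg ((lam.1, update lam.2 lxj.1.1 lxj.1.2), lxj.2))

theorem map_gvec {R' : Type*} [CommRing R] [CommRing R'] (f : R →+* R')
    (cfg : Var α i₀ i₁ i₂ q ρ → R) (lam : Loc α i₀ i₁ i₂ q) (g : Gen α i₀ i₁ i₂ q ρ)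
    (b : Fin 2 × α i₁ × α i₂) : f (gvec cfg lam g b) = gvec (fun v => f (cfg v)) lam g b := by
  rcases g with g | g | g | g <;> obtain ⟨b1, b2, b3⟩ := b <;>
    simp only [gvec, tri, vecA, vecB, vecC, map_mul, Pi.single_apply, apply_ite f, map_one, map_zero]

end vec

section global

variable {q ρ : ℕ} (e₀ : α i₀ ≃ Fin q × Fin 2)

/-- The points. -/
def PP (cfg : Var α i₀ i₁ i₂ q ρ → K) (p : PIx α i₀ i₁ i₂ q ρ) : ∀ i, α i → K :=
  update (update (update
    (fun l => if h : l ≠ i₀ ∧ l ≠ i₁ ∧ l ≠ i₂ then Pi.single (p.1.2 ⟨l, h⟩) 1 else 0)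
    i₀ (fun x => if (e₀ x).1 = p.1.1 then vecA cfg p (e₀ x).2 else 0))
    i₁ (vecB cfg p)) i₂ (vecC cfg p)

/-- Extension of a local tensor. -/
def emb (lam : Loc α i₀ i₁ i₂ q) :
    (Fin 2 × α i₁ × α i₂ → K) →ₗ[K] ((∀ i, α i) → K) where
  toFun S x := if (e₀ (x i₀)).1 = lam.1 ∧ (fun l : Mid i₀ i₁ i₂ => x l) = lam.2
    then S ((e₀ (x i₀)).2, x i₁, x i₂) else 0
  map_add' S T := by funext x; simp only [Pi.add_apply]; split_ifs <;> simp
  map_smul' a S := by funext x; simp only [Pi.smul_apply, RingHom.id_apply]; split_ifs <;> simp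

theorem pt_eq (h01 : i₀ ≠ i₁) (h02 : i₀ ≠ i₂) (h12 : i₁ ≠ i₂) (v : ∀ i, α i → K)
    (m : ∀ l : Mid i₀ i₁ i₂, α l) (hv : ∀ l : Mid i₀ i₁ i₂, v l = Pi.single (m l) 1)
    (x : ∀ i, α i) : pt v x = v i₀ (x i₀) * v i₁ (x i₁) * v i₂ (x i₂) *
      (if (fun l : Mid i₀ i₁ i₂ => x l) = m then 1 else 0) := by
  unfold pt
  rw [prod_split h01 h02 h12]
  congr 1
  have : ∀ l : Mid i₀ i₁ i₂, v l (x l) = if x l = m l then 1 else 0 := by
    intro l
    rw [hv l, Pi.single_apply]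
  simp only [this]
  rw [Finset.prod_ite_zero, Finset.prod_const_one]
  congr 1
  simp [funext_iff]

theorem spans_of_local (h01 : i₀ ≠ i₁) (h02 : i₀ ≠ i₂) (h12 : i₁ ≠ i₂)
    (cfg : Var α i₀ i₁ i₂ q ρ → K)
    (h : ∀ lam : Loc α i₀ i₁ i₂ q, Submodule.span K (Set.range (gvec cfg lam)) = ⊤) :
    Spans (PP e₀ cfg) := by
  have hP2 : ∀ p, PP e₀ cfg p i₂ = vecC cfg p := by
    intro p; unfold PP; rw [update_self]
  have hP1 : ∀ p, PP e₀ cfg p i₁ = vecB cfg p := by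
    intro p; unfold PP; rw [update_of_ne h12, update_self]
  have hP0 : ∀ p, PP e₀ cfg p i₀ =
      fun x => if (e₀ x).1 = p.1.1 then vecA cfg p (e₀ x).2 else 0 := by
    intro p; unfold PP; rw [update_of_ne h02, update_of_ne h01, update_self]
  have hPm : ∀ p (l : Mid i₀ i₁ i₂), PP e₀ cfg p l = Pi.single (p.1.2 l) 1 := by
    intro p l
    unfold PP
    rw [update_of_ne l.2.2.2, update_of_ne l.2.2.1, update_of_ne l.2.1, dif_pos l.2]
  have hgen : ∀ (lam : Loc α i₀ i₁ i₂ q) (g : Gen α i₀ i₁ i₂ q ρ),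
      ∃ k i w, emb (K := K) e₀ lam (gvec cfg lam g) = pt (update (PP e₀ cfg k) i w) := by
    intro lam g
    rcases g with ⟨j, y⟩ | ⟨j, z⟩ | ⟨b, j, s⟩ | ⟨⟨l, x'⟩, j⟩
    · refine ⟨(lam, j), i₁, Pi.single y 1, ?_⟩
      funext x
      rw [pt_eq h01 h02 h12 _ lam.2 (fun l => by
        rw [update_of_ne l.2.2.1, hPm]), update_self, update_of_ne h01, update_of_ne h12.symm,
        hP0, hP2]
      simp only [emb, LinearMap.coe_mk, AddHom.coe_mk, gvec, tri]
      by_cases h1 : (e₀ (x i₀)).1 = lam.1 <;>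
        by_cases h2 : (fun l : Mid i₀ i₁ i₂ => x l) = lam.2 <;> simp [h1, h2]
    · refine ⟨(lam, j), i₂, Pi.single z 1, ?_⟩
      funext x
      rw [pt_eq h01 h02 h12 _ lam.2 (fun l => by
        rw [update_of_ne l.2.2.2, hPm]), update_self, update_of_ne h02, update_of_ne h12,
        hP0, hP1]
      simp only [emb, LinearMap.coe_mk, AddHom.coe_mk, gvec, tri]
      by_cases h1 : (e₀ (x i₀)).1 = lam.1 <;>
        by_cases h2 : (fun l : Mid i₀ i₁ i₂ => x l) = lam.2 <;> simp [h1, h2]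
    · refine ⟨((b, lam.2), j), i₀, fun x => if (e₀ x).1 = lam.1 then
        (Pi.single s 1 : Fin 2 → K) (e₀ x).2 else 0, ?_⟩
      funext x
      rw [pt_eq h01 h02 h12 _ lam.2 (fun l => by
        rw [update_of_ne l.2.1, hPm]), update_self, update_of_ne h01.symm, update_of_ne h02.symm,
        hP1, hP2]
      simp only [emb, LinearMap.coe_mk, AddHom.coe_mk, gvec, tri]
      by_cases h1 : (e₀ (x i₀)).1 = lam.1 <;>
        by_cases h2 : (fun l : Mid i₀ i₁ i₂ => x l) = lam.2 <;> simp [h1, h2]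
    · refine ⟨((lam.1, update lam.2 l x'), j), l, Pi.single (lam.2 l) 1, ?_⟩
      funext x
      rw [pt_eq h01 h02 h12 _ lam.2 (fun l' => by
        by_cases hl : l' = l
        · subst hl; rw [update_self]
        · rw [update_of_ne (fun h => hl (Subtype.ext h)), hPm]
          simp only
          rw [update_of_ne hl]), update_of_ne l.2.1.symm, update_of_ne l.2.2.1.symm,
        update_of_ne l.2.2.2.symm, hP0, hP1, hP2]
      simp only [emb, LinearMap.coe_mk, AddHom.coe_mk, gvec, tri]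
      by_cases h1 : (e₀ (x i₀)).1 = lam.1 <;>
        by_cases h2 : (fun l : Mid i₀ i₁ i₂ => x l) = lam.2 <;> simp [h1, h2]
  unfold Spans
  have hemb : ∀ (lam : Loc α i₀ i₁ i₂ q) (S : Fin 2 × α i₁ × α i₂ → K), emb e₀ lam S ∈
      Submodule.span K {T : (∀ i, α i) → K | ∃ k i w, T = pt (update (PP e₀ cfg k) i w)} := by
    intro lam S
    have h1 : S ∈ Submodule.span K (Set.range (gvec cfg lam)) := by rw [h lam]; trivial
    have h2 := Submodule.mem_map_of_mem (f := emb (K := K) e₀ lam) h1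
    rw [Submodule.map_span] at h2
    refine Submodule.span_mono ?_ h2
    rintro _ ⟨_, ⟨g, rfl⟩, rfl⟩
    exact hgen lam g
  rw [eq_top_iff]
  rintro T -
  have hT : T = ∑ x₀ : ∀ i, α i, T x₀ • emb (K := K) e₀ ((e₀ (x₀ i₀)).1, fun l => x₀ l)
      (Pi.single ((e₀ (x₀ i₀)).2, x₀ i₁, x₀ i₂) 1) := by
    funext x
    rw [Finset.sum_apply, Finset.sum_eq_single x]
    · simp [emb]
    · intro x₀ _ hx
      simp only [emb, LinearMap.coe_mk, AddHom.coe_mk, Pi.smul_apply, smul_eq_mul]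
      split_ifs with h3
      · rw [Pi.single_apply, if_neg, mul_zero]
        intro h4
        apply hx
        rw [Prod.mk.injEq, Prod.mk.injEq] at h4
        funext i
        by_cases hi0 : i = i₀
        · subst hi0
          apply e₀.injective
          exact (Prod.ext h3.1 h4.1).symm
        by_cases hi1 : i = i₁
        · subst hi1; exact h4.2.1.symm
        by_cases hi2 : i = i₂
        · subst hi2; exact h4.2.2.symm
        exact (congrFun h3.2 ⟨i, hi0, hi1, hi2⟩).symm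
      · rw [mul_zero]
    · intro h; exact absurd (Finset.mem_univ _) h
  rw [hT]
  exact Submodule.sum_mem _ fun x₀ _ => Submodule.smul_mem _ _ (hemb _ _)

end global

end Pool.Agent.TH140.MR
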