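import Pool.Agent.TH140.MR.Upper

/-!
# The lower bound by counting parameters, and the maximal rank
-/

set_option autoImplicit false

open Function

namespace Pool.Agent.TH140.MR

theorem le_of_all_rankLE {K : Type*} [RCLike K] {d : ℕ} (n : Fin d → ℕ) (r : ℕ)
    (h : ∀ T : (∀ i, Fin (n i)) → K, RankLE r T) : ∏ i, n i ≤ r * ∑ i, n i := by
  by_contra hcon
  push Not at hcon
  let f : (Fin r → ∀ i, Fin (n i) → K) → ((∀ i, Fin (n i)) → K) :=
    fun v x => ∑ k, ∏ i, v k i (x i)
  have hf : ContDiff ℝ 1 f := by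
    rw [contDiff_pi]
    intro x
    refine ContDiff.sum fun k _ => ?_
    refine contDiff_prod fun i _ => ?_
    have h1 : ContDiff ℝ 1 (fun v : Fin r → ∀ i, Fin (n i) → K => v k) := contDiff_apply ℝ _ k
    have h2 : ContDiff ℝ 1 (fun v : (∀ i, Fin (n i) → K) => v i) := by
      exact (ContinuousLinearMap.proj (R := ℝ) i :
        (∀ i, Fin (n i) → K) →L[ℝ] (Fin (n i) → K)).contDiff
    have h3 : ContDiff ℝ 1 (fun v : Fin (n i) → K => v (x i)) := contDiff_apply ℝ _ (x i)
    exact h3.comp (h2.comp h1)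
  have hpos : 0 < Module.finrank ℝ K := Module.finrank_pos
  have hfr : Module.finrank ℝ (Fin r → ∀ i, Fin (n i) → K) <
      Module.finrank ℝ ((∀ i, Fin (n i)) → K) := by
    rw [Module.finrank_pi_fintype, Module.finrank_pi_fintype]
    simp only [Module.finrank_pi_fintype, Finset.sum_const, Finset.card_univ, Fintype.card_fin,
      Fintype.card_pi, smul_eq_mul]
    rw [← Finset.sum_mul, ← mul_assoc]
    exact Nat.mul_lt_mul_of_pos_right hcon hpos
  have hd := hf.dense_compl_range_of_finrank_lt_finrank hfr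
  obtain ⟨T, hT⟩ := hd.nonempty
  apply hT
  obtain ⟨v, hv⟩ := h T
  exact ⟨v, hv.symm⟩

/-- The rank of a tensor: the least number of decomposable tensors with sum `T`. -/
noncomputable def tensorRank {K : Type*} [CommSemiring K] {d : ℕ} {n : Fin d → ℕ}
    (T : (∀ i, Fin (n i)) → K) : ℕ :=
  sInf {r : ℕ | RankLE r T}

/-- The maximal rank of the tensors of format `n`. -/
noncomputable def maxRank (K : Type*) [CommSemiring K] {d : ℕ} (n : Fin d → ℕ) : ℕ :=
  sSup (Set.range (tensorRank : ((∀ i, Fin (n i)) → K) → ℕ))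

section

variable {K : Type*} [Field K] {d : ℕ} {n : Fin d → ℕ}

theorem rankLE_tensorRank [NeZero d] (T : (∀ i, Fin (n i)) → K) : RankLE (tensorRank T) T := by
  have : {r : ℕ | RankLE r T}.Nonempty := ⟨_, rankLE_slices (0 : Fin d) T⟩
  exact Nat.sInf_mem this

theorem maxRank_le {N : ℕ} (h : ∀ T : (∀ i, Fin (n i)) → K, RankLE N T) : maxRank K n ≤ N := by
  apply csSup_le' 
  rintro _ ⟨T, rfl⟩
  exact Nat.sInf_le (h T)

theorem rankLE_maxRank [NeZero d] (T : (∀ i, Fin (n i)) → K) : RankLE (maxRank K n) T := by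
  have hb : BddAbove (Set.range (tensorRank : ((∀ i, Fin (n i)) → K) → ℕ)) := by
    refine ⟨∏ j : {j : Fin d // j ≠ 0}, Fintype.card (Fin (n j)), ?_⟩
    rintro _ ⟨T, rfl⟩
    exact Nat.sInf_le (rankLE_slices (0 : Fin d) T)
  have h1 : tensorRank T ≤ maxRank K n := le_csSup hb ⟨T, rfl⟩
  exact (rankLE_tensorRank T).mono h1

end

theorem prod_le_maxRank_mul {K : Type*} [RCLike K] {d : ℕ} [NeZero d] (n : Fin d → ℕ) :
    ∏ i, n i ≤ maxRank K n * ∑ i, n i :=
  le_of_all_rankLE n _ fun T => rankLE_maxRank T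

end Pool.Agent.TH140.MR
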