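import Pool.Agent.TH140.MR.Basic

/-!
# A second criterion: a relation and a family whose sum is tangent to it

If `Q` is a vanishing sum of decomposable tensors, `P` is a family of decomposable tensors whose
sum lies in the span of the tangent spaces at `Q`, and the tangent spaces at `P` and `Q` together
span everything, then every tensor is a sum of `|P| + |Q|` decomposable tensors.
-/

set_option autoImplicit false

open Function

namespace Pool.Agent.TH140.MR

section expand

variable {ι R : Type*} [Fintype ι] [DecidableEq ι] [CommRing R]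

theorem filter_card_lt_two :
    (Finset.univ.filter fun s : Finset ι => ¬ 2 ≤ s.card) =
      insert ∅ (Finset.univ.map ⟨fun i : ι => ({i} : Finset ι), Finset.singleton_injective⟩) := by
  ext s
  simp only [Finset.mem_filter, Finset.mem_univ, true_and, not_le, Finset.mem_insert,
    Finset.mem_map, Function.Embedding.coeFn_mk]
  constructor
  · intro h
    rcases Nat.lt_or_ge s.card 1 with h1 | h1
    · left
      exact Finset.card_eq_zero.1 (by omega)
    · right
      obtain ⟨i, hi⟩ := Finset.card_eq_one.1 (show s.card = 1 by omega)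
      exact ⟨i, hi.symm⟩
  · rintro (rfl | ⟨i, rfl⟩) <;> simp

theorem prod_add_expand (q b : ι → R) (t : R) :
    ∏ i, (q i + t * b i) = ∏ i, q i + t * (∑ i, (∏ j ∈ Finset.univ.erase i, q j) * b i) +
      t ^ 2 * ∑ s ∈ Finset.univ.filter (fun s : Finset ι => 2 ≤ s.card),
        t ^ (s.card - 2) * ((∏ i ∈ s, b i) * ∏ i ∈ sᶜ, q i) := by
  have h1 : ∏ i, (q i + t * b i) =
      ∑ s : Finset ι, t ^ s.card * ((∏ i ∈ s, b i) * ∏ i ∈ sᶜ, q i) := by
    have h2 := Finset.prod_add (fun i => t * b i) q Finset.univ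
    rw [Finset.powerset_univ] at h2
    rw [show (∏ i, (q i + t * b i)) = ∏ i, (t * b i + q i) from
      Finset.prod_congr rfl fun i _ => add_comm _ _, h2]
    refine Finset.sum_congr rfl fun s _ => ?_
    rw [Finset.prod_mul_distrib, Finset.prod_const, mul_assoc, Finset.compl_eq_univ_sdiff]
  rw [h1, ← Finset.sum_filter_add_sum_filter_not Finset.univ (fun s : Finset ι => 2 ≤ s.card),
    filter_card_lt_two, Finset.sum_insert (by simp), Finset.sum_map]
  have h3 : ∑ s ∈ Finset.univ.filter (fun s : Finset ι => 2 ≤ s.card),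
      t ^ s.card * ((∏ i ∈ s, b i) * ∏ i ∈ sᶜ, q i) =
      t ^ 2 * ∑ s ∈ Finset.univ.filter (fun s : Finset ι => 2 ≤ s.card),
        t ^ (s.card - 2) * ((∏ i ∈ s, b i) * ∏ i ∈ sᶜ, q i) := by
    rw [Finset.mul_sum]
    refine Finset.sum_congr rfl fun s hs => ?_
    have hs2 : 2 ≤ s.card := (Finset.mem_filter.1 hs).2
    have e : t ^ s.card = t ^ 2 * t ^ (s.card - 2) := by
      rw [← pow_add, Nat.add_sub_cancel' hs2]
    rw [e, mul_assoc]
  rw [h3]
  have h4 : ∑ x : ι, t ^ (({x} : Finset ι)).card *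
      ((∏ i ∈ ({x} : Finset ι), b i) * ∏ i ∈ ({x} : Finset ι)ᶜ, q i) =
      t * (∑ i, (∏ j ∈ Finset.univ.erase i, q j) * b i) := by
    rw [Finset.mul_sum]
    refine Finset.sum_congr rfl fun i _ => ?_
    rw [Finset.card_singleton, pow_one, Finset.prod_singleton]
    have : ({i} : Finset ι)ᶜ = Finset.univ.erase i := by
      ext j; simp
    rw [this, mul_comm (b i)]
  simp only [Function.Embedding.coeFn_mk]
  rw [h4]
  simp only [Finset.card_empty, pow_zero, Finset.prod_empty, one_mul, Finset.compl_empty]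
  ring

end expand

section analytic

variable {K : Type*} {ι : Type*} [Fintype ι] {α : ι → Type*}
variable [RCLike K] [DecidableEq ι] {κ κ₁ κ₂ : Type*} [Fintype κ] [Fintype κ₁] [Fintype κ₂]
  [∀ i, Fintype (α i)]

/-- The remainder of order two of `phi` at `Q` in the direction `b`. -/
def remd (Q : κ → ∀ i, α i → K) (z : K × (κ → ∀ i, α i → K)) : (∀ i, α i) → K := fun x =>
  ∑ k, ∑ s ∈ Finset.univ.filter (fun s : Finset ι => 2 ≤ s.card),
    z.1 ^ (s.card - 2) * ((∏ i ∈ s, z.2 k i (x i)) * ∏ i ∈ sᶜ, Q k i (x i))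

theorem phi_add (Q b : κ → ∀ i, α i → K) (t : K) :
    phi (Q + t • b) = phi Q + t • dphi Q b + t ^ 2 • remd Q (t, b) := by
  funext x
  simp only [phi, Pi.add_apply, Pi.smul_apply, smul_eq_mul, remd, dphi,
    ContinuousLinearMap.coe_pi', _root_.sum_apply, _root_.smul_apply,
    ContinuousLinearMap.comp_apply, ContinuousLinearMap.proj_apply]
  rw [Finset.mul_sum, Finset.mul_sum, ← Finset.sum_add_distrib, ← Finset.sum_add_distrib]
  refine Finset.sum_congr rfl fun k _ => ?_
  exact prod_add_expand (fun i => Q k i (x i)) (fun i => b k i (x i)) t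

theorem contDiff_remd (Q : κ → ∀ i, α i → K) : ContDiff K 1 (remd Q) := by
  rw [contDiff_pi]
  intro x
  refine ContDiff.sum fun k _ => ContDiff.sum fun s _ => ?_
  refine ContDiff.mul (contDiff_fst.pow _) (ContDiff.mul (contDiff_prod fun i _ => ?_)
    contDiff_const)
  exact (((ContinuousLinearMap.proj (x i) : (α i → K) →L[K] K).comp
    ((ContinuousLinearMap.proj i : (∀ i, α i → K) →L[K] (α i → K)).comp
      (ContinuousLinearMap.proj k : (κ → ∀ i, α i → K) →L[K] (∀ i, α i → K)))).contDiff).comp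
    contDiff_snd

/-- **Second criterion.** -/
theorem rankLE_of_pair [Nonempty ι] (P : κ₁ → ∀ i, α i → K) (Q : κ₂ → ∀ i, α i → K)
    (h0 : phi Q = 0) (h1 : phi P ∈ (dphi Q).range)
    (h2 : (dphi P).range ⊔ (dphi Q).range = ⊤) (T : (∀ i, α i) → K) :
    RankLE (Fintype.card κ₁ + Fintype.card κ₂) T := by
  obtain ⟨i₀⟩ := ‹Nonempty ι›
  obtain ⟨β, hβ⟩ : ∃ β, dphi Q β = - phi P := by
    obtain ⟨β, hβ⟩ := h1
    refine ⟨-β, ?_⟩
    rw [map_neg]
    exact congrArg Neg.neg hβ
  let E₁ := κ₁ → ∀ i, α i → K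
  let E₂ := κ₂ → ∀ i, α i → K
  let X := (∀ i, α i) → K
  let G : K × E₁ × E₂ → K × X := fun z =>
    (z.1, phi z.2.1 + (dphi Q z.2.2 + z.1 • remd Q (z.1, z.2.2)))
  let z₀ : K × E₁ × E₂ := (0, P, β)
  let pr : K × E₁ × E₂ →L[K] K × E₂ := (ContinuousLinearMap.fst K K (E₁ × E₂)).prod
    ((ContinuousLinearMap.snd K E₁ E₂).comp (ContinuousLinearMap.snd K K (E₁ × E₂)))
  have hrem : HasStrictFDerivAt (fun z : K × E₁ × E₂ => remd Q (z.1, z.2.2))
      ((fderiv K (remd Q) (0, β)).comp pr) z₀ := by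
    have h3 : HasStrictFDerivAt (remd Q) (fderiv K (remd Q) (0, β)) (pr z₀) :=
      ((contDiff_remd Q).contDiffAt.hasStrictFDerivAt (by norm_num))
    exact h3.comp z₀ pr.hasStrictFDerivAt
  have hfst : HasStrictFDerivAt (fun z : K × E₁ × E₂ => z.1)
      (ContinuousLinearMap.fst K K (E₁ × E₂)) z₀ :=
    (ContinuousLinearMap.fst K K (E₁ × E₂)).hasStrictFDerivAt
  have hsmul := hfst.smul hrem
  have hP : HasStrictFDerivAt (fun z : K × E₁ × E₂ => phi z.2.1)
      ((dphi P).comp ((ContinuousLinearMap.fst K E₁ E₂).comp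
        (ContinuousLinearMap.snd K K (E₁ × E₂)))) z₀ :=
    (hasStrictFDerivAt_phi P).comp z₀ ((ContinuousLinearMap.fst K E₁ E₂).comp
        (ContinuousLinearMap.snd K K (E₁ × E₂))).hasStrictFDerivAt
  have hQ : HasStrictFDerivAt (fun z : K × E₁ × E₂ => dphi Q z.2.2)
      ((dphi Q).comp ((ContinuousLinearMap.snd K E₁ E₂).comp
        (ContinuousLinearMap.snd K K (E₁ × E₂)))) z₀ :=
    ((dphi Q).comp ((ContinuousLinearMap.snd K E₁ E₂).comp
        (ContinuousLinearMap.snd K K (E₁ × E₂)))).hasStrictFDerivAt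
  have hG : HasStrictFDerivAt G _ z₀ := hfst.prodMk (hP.add (hQ.add hsmul))
  have hG0 : G z₀ = 0 := by
    simp only [G, z₀, hβ, zero_smul, add_zero, add_neg_cancel]
    rfl
  have hmap := hG.map_nhds_eq_of_surj (by
    rw [LinearMap.range_eq_top]
    rintro ⟨s, Y⟩
    have h4 : Y - s • remd Q (0, β) ∈ (dphi P).range ⊔ (dphi Q).range := by
      rw [h2]; trivial
    obtain ⟨y₁, ⟨a, ha⟩, y₂, ⟨b, hb⟩, hy⟩ := Submodule.mem_sup.1 h4
    refine ⟨(s, a, b), ?_⟩
    have ha' : dphi P a = y₁ := ha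
    have hb' : dphi Q b = y₂ := hb
    simp [z₀, ha', hb']
    rw [← add_assoc, hy]
    simp)
  rw [hG0] at hmap
  have h5 : Filter.Tendsto (fun c : K => ((c, c • T) : K × X)) (nhds 0) (nhds 0) := by
    have : Continuous (fun c : K => ((c, c • T) : K × X)) :=
      continuous_id.prodMk (continuous_id.smul continuous_const)
    have h6 : Filter.Tendsto (fun c : K => ((c, c • T) : K × X)) (nhds 0)
        (nhds ((0 : K), (0 : X))) := by
      simpa using this.tendsto 0
    exact h6
  have h7 : Set.range G ∈ nhds (0 : K × X) := by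
    rw [← hmap]
    exact Filter.mem_map.2 (Filter.mem_of_superset Filter.univ_mem fun p _ => ⟨p, rfl⟩)
  have h8' : ∀ᶠ c : K in nhds 0, ((c, c • T) : K × X) ∈ Set.range G := h5 h7
  have h8 : ∀ᶠ c : K in nhdsWithin 0 {0}ᶜ, ((c, c • T) : K × X) ∈ Set.range G :=
    h8'.filter_mono nhdsWithin_le_nhds
  obtain ⟨c, ⟨⟨t, a, b⟩, hz⟩, hc0⟩ := (h8.and self_mem_nhdsWithin).exists
  have hc0' : c ≠ 0 := hc0
  have ht : t = c := congrArg Prod.fst hz
  have hT : phi a + (dphi Q b + t • remd Q (t, b)) = c • T := congrArg Prod.snd hz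
  subst ht
  have key : ∀ x, T x = ∑ k, t⁻¹ * ∏ i, a k i (x i) +
      ∑ k, (t ^ 2)⁻¹ * ∏ i, (Q + t • b) k i (x i) := by
    intro x
    have e1 := congrFun hT x
    have e2 := congrFun (phi_add Q b t) x
    rw [h0, zero_add] at e2
    simp only [Pi.add_apply, Pi.smul_apply, smul_eq_mul] at e1 e2
    rw [← Finset.mul_sum, ← Finset.mul_sum]
    have e3 : ∑ k, ∏ i, a k i (x i) = phi a x := rfl
    have e4 : ∑ k, ∏ i, (Q + t • b) k i (x i) = phi (Q + t • b) x := rfl
    rw [e3, e4, e2]
    have e5 : phi a x = t * T x - ((dphi Q b) x + t * remd Q (t, b) x) := by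
      rw [← e1]; ring
    rw [e5]
    field_simp
    ring
  have h9 : RankLE (Fintype.card (κ₁ ⊕ κ₂)) T := by
    refine rankLE_of_card (Sum.elim (fun k => update (a k) i₀ (t⁻¹ • a k i₀))
      (fun k => update ((Q + t • b) k) i₀ ((t ^ 2)⁻¹ • (Q + t • b) k i₀))) T fun x => ?_
    rw [key x, Fintype.sum_sum_type]
    have h10 : ∀ (v : ∀ i, α i → K) (c : K), ∏ i, update v i₀ (c • v i₀) i (x i) =
        c * ∏ i, v i (x i) := by
      intro v c
      have := pt_update v i₀ (c • v i₀) x
      unfold pt at this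
      rw [this, ← Finset.mul_prod_erase Finset.univ (fun i => v i (x i)) (Finset.mem_univ i₀)]
      simp [mul_assoc]
    simp only [Sum.elim_inl, Sum.elim_inr, h10]
  rwa [Fintype.card_sum] at h9

end analytic

end Pool.Agent.TH140.MR
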