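import Pool.Agent.TH140.MR.Gen3
import Pool.Agent.TH140.MR.Pert
import Pool.Agent.TH140.MR.Lower

/-!
# The rank of tensors of format `3h × 3h × 3h`
-/

set_option autoImplicit false

open Function

namespace Pool.Agent.TH140.MR

section tangent

variable {K : Type*} {ι : Type*} [Fintype ι] {α : ι → Type*}
variable [RCLike K] [DecidableEq ι] {κ : Type*} [Fintype κ] [∀ i, Fintype (α i)]

theorem tangent_mem (P : κ → ∀ i, α i → K) (k : κ) (i : ι) (w : α i → K) :
    pt (update (P k) i w) ∈ (dphi P).range := by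
  classical
  refine ⟨Pi.single k (Pi.single i w), ?_⟩
  funext x
  rw [pt_update]
  change (dphi P) (Pi.single k (Pi.single i w)) x = _
  simp only [dphi, ContinuousLinearMap.coe_pi', _root_.sum_apply,
    _root_.smul_apply, ContinuousLinearMap.comp_apply,
    ContinuousLinearMap.proj_apply, smul_eq_mul]
  rw [Finset.sum_eq_single k, Finset.sum_eq_single i]
  · simp [mul_comm]
  · intro j _ hj
    simp [Pi.single_eq_of_ne hj]
  · intro h; exact absurd (Finset.mem_univ _) h
  · intro k' _ hk
    simp [Pi.single_eq_of_ne hk]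
  · intro h; exact absurd (Finset.mem_univ _) h

end tangent

variable {K : Type*} [RCLike K] {H κ₀ : Type*} [Fintype H] [DecidableEq H] [Fintype κ₀]

/-- The copies of the configuration `q` in all blocks. -/
def qblk (q : κ₀ → Fin 3 → Fin 3 → K) (p : H × κ₀) (s : Fin 3) (w : H × Fin 3) : K :=
  if w.1 = p.1 then q p.2 s w.2 else 0

theorem phi_qblk (q : κ₀ → Fin 3 → Fin 3 → K)
    (hq : ∀ y : Fin 3 → Fin 3, ∑ k, ∏ s, q k s (y s) = 0) :
    phi (qblk (H := H) q) = 0 := by
  funext x
  simp only [phi, Pi.zero_apply]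
  rw [Fintype.sum_prod_type]
  refine Finset.sum_eq_zero fun u _ => ?_
  by_cases h : ∀ s, (x s).1 = u
  · rw [← hq fun s => (x s).2]
    refine Finset.sum_congr rfl fun k _ => Finset.prod_congr rfl fun s _ => ?_
    simp [qblk, h s]
  · push Not at h
    obtain ⟨s, hs⟩ := h
    refine Finset.sum_eq_zero fun k _ => Finset.prod_eq_zero (Finset.mem_univ s) ?_
    simp [qblk, hs]

theorem single_mem_qblk (q : κ₀ → Fin 3 → Fin 3 → K)
    (hq : ∀ (l : Fin 3) (y : Fin 3 → Fin 3), ∃ k, ∀ s, s ≠ l → q k s = Pi.single (y s) 1)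
    (x : Fin 3 → H × Fin 3) (hx : ¬ Injective fun s => (x s).1) :
    (Pi.single x 1 : (Fin 3 → H × Fin 3) → K) ∈ (dphi (qblk (H := H) q)).range := by
  unfold Injective at hx
  push Not at hx
  obtain ⟨i, j, hij, hne⟩ := hx
  have key : ∀ i j : Fin 3, i ≠ j → ∃ l, ∀ s, s ≠ l → s = i ∨ s = j := by decide
  obtain ⟨l, hl⟩ := key i j hne
  obtain ⟨k, hk⟩ := hq l fun s => (x s).2
  have hs : ∀ s, s ≠ l → (x s).1 = (x i).1 := by
    intro s hs
    rcases hl s hs with h | h
    · rw [h]
    · rw [h, hij]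
  have h1 : (Pi.single x 1 : (Fin 3 → H × Fin 3) → K) =
      pt (update (qblk q ((x i).1, k)) l (Pi.single (x l) 1)) := by
    funext y
    have h2 : ∀ s, update (qblk q ((x i).1, k)) l (Pi.single (x l) 1) s (y s) =
        if y s = x s then (1 : K) else 0 := by
      intro s
      by_cases hsl : s = l
      · subst hsl
        rw [update_self, Pi.single_apply]
      · rw [update_of_ne hsl]
        simp only [qblk, hk s hsl, Pi.single_apply]
        by_cases h3 : (y s).1 = (x i).1
        · rw [if_pos h3]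
          congr 1
          rw [Prod.ext_iff, hs s hsl]
          simp [h3]
        · rw [if_neg h3, if_neg]
          intro h4
          rw [h4, hs s hsl] at h3
          exact h3 rfl
    unfold pt
    simp only [h2]
    by_cases hyx : y = x
    · subst hyx
      simp
    · rw [Pi.single_eq_of_ne hyx]
      obtain ⟨s, hs'⟩ := Function.ne_iff.1 hyx
      symm
      exact Finset.prod_eq_zero (Finset.mem_univ s) (if_neg hs')
  rw [h1]
  exact tangent_mem _ _ _ _

theorem supp_mem_qblk (q : κ₀ → Fin 3 → Fin 3 → K)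
    (hq : ∀ (l : Fin 3) (y : Fin 3 → Fin 3), ∃ k, ∀ s, s ≠ l → q k s = Pi.single (y s) 1)
    (Z : (Fin 3 → H × Fin 3) → K) (hZ : ∀ x, (Injective fun s => (x s).1) → Z x = 0) :
    Z ∈ (dphi (qblk (H := H) q)).range := by
  classical
  have h1 : Z = ∑ x, Z x • (Pi.single x 1 : (Fin 3 → H × Fin 3) → K) := by
    funext y
    rw [Finset.sum_apply]
    simp [Pi.single_apply]
  rw [h1]
  refine Submodule.sum_mem _ fun x _ => ?_
  by_cases hx : Injective fun s => (x s).1
  · rw [hZ x hx, zero_smul]
    exact Submodule.zero_mem _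
  · exact Submodule.smul_mem _ _ (single_mem_qblk q hq x hx)

theorem Pp_eq_zero (c : Par H → K) (p : {p : H × H // p.1 ≠ p.2} × Fin 3)
    (x : Fin 3 → H × Fin 3) (hx : Injective fun s => (x s).1) :
    ∏ s, Pp c p s (x s) = 0 := by
  by_contra hcon
  have h1 : ∀ s, (x s).1 = p.1.1.1 ∨ (x s).1 = p.1.1.2 := by
    intro s
    by_contra h
    push Not at h
    apply hcon
    refine Finset.prod_eq_zero (Finset.mem_univ s) ?_
    simp [Pp, h.1, h.2]
  have h01 := hx.ne (show (0 : Fin 3) ≠ 1 by decide)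
  have h02 := hx.ne (show (0 : Fin 3) ≠ 2 by decide)
  have h12 := hx.ne (show (1 : Fin 3) ≠ 2 by decide)
  rcases h1 0 with h0 | h0 <;> rcases h1 1 with h1' | h1' <;> rcases h1 2 with h2 | h2 <;>
    rw [h0] at h01 h02 <;> rw [h1'] at h01 h12 <;> rw [h2] at h02 h12 <;>
    simp at h01 h02 h12

/-- **Main theorem for cubes.** -/
theorem cube_rankLE (q : κ₀ → Fin 3 → Fin 3 → K)
    (hq0 : ∀ y : Fin 3 → Fin 3, ∑ k, ∏ s, q k s (y s) = 0)
    (hq : ∀ (l : Fin 3) (y : Fin 3 → Fin 3), ∃ k, ∀ s, s ≠ l → q k s = Pi.single (y s) 1)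
    (T : (Fin 3 → H × Fin 3) → K) :
    RankLE (Fintype.card ({p : H × H // p.1 ≠ p.2} × Fin 3) + Fintype.card (H × κ₀)) T := by
  obtain ⟨c, hc⟩ := exists_generic3 (H := H) K
  refine rankLE_of_pair (α := fun _ => H × Fin 3) (Pp c) (qblk q) (phi_qblk q hq0) ?_ ?_ T
  · apply supp_mem_qblk q hq
    intro x hx
    simp only [phi]
    exact Finset.sum_eq_zero fun p _ => Pp_eq_zero c p x hx
  · rw [eq_top_iff]
    rintro Z -
    have h1 : Z = ∑ x, Z x • (Pi.single x 1 : (Fin 3 → H × Fin 3) → K) := by
      funext y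
      rw [Finset.sum_apply]
      simp [Pi.single_apply]
    rw [h1]
    refine Submodule.sum_mem _ fun x _ => Submodule.smul_mem _ _ ?_
    by_cases hx : Injective fun s => (x s).1
    · set b : Fin 3 → H := fun s => (x s).1 with hb
      have hne : ∀ ρ t, b (us ρ t) ≠ b (vs ρ t) := fun ρ t => hx.ne (us_ne_vs ρ t)
      have h2 := hc b hx
      have h3 : (Pi.single ((x 0).2, (x 1).2, (x 2).2) 1 : Fin 3 × Fin 3 × Fin 3 → K) ∈
          Submodule.span K (Set.range (locv fun ρ t s k => c (gv b ρ t s k))) := by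
        rw [h2]; trivial
      rw [Submodule.mem_span_range_iff_exists_fun] at h3
      obtain ⟨r, hr⟩ := h3
      let Y : (Fin 3 → H × Fin 3) → K := ∑ g : Fin 3 × Fin 3 × Fin 3, r g •
        pt (update (Pp c (⟨(b (us g.1 g.2.1), b (vs g.1 g.2.1)), hne _ _⟩, g.2.1)) g.1
          (Pi.single (b g.1, g.2.2) 1))
      have hY : Y ∈ (dphi (K := K) (α := fun _ : Fin 3 => H × Fin 3) (Pp c)).range :=
        Submodule.sum_mem _ fun g _ => Submodule.smul_mem _ _ (tangent_mem _ _ _ _)
      have hd : (Pi.single x 1 : (Fin 3 → H × Fin 3) → K) - Y ∈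
          (dphi (K := K) (α := fun _ : Fin 3 => H × Fin 3) (qblk q)).range := by
        apply supp_mem_qblk q hq
        intro y hy
        simp only [Pi.sub_apply, Y, Finset.sum_apply, Pi.smul_apply, smul_eq_mul]
        by_cases hyb : ∀ s, (y s).1 = b s
        · have h4 : ∀ g : Fin 3 × Fin 3 × Fin 3, pt (update (Pp c (⟨(b (us g.1 g.2.1),
              b (vs g.1 g.2.1)), hne _ _⟩, g.2.1)) g.1 (Pi.single (b g.1, g.2.2) 1)) y =
              locv (fun ρ t s k => c (gv b ρ t s k)) g ((y 0).2, (y 1).2, (y 2).2) := by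
            intro g
            rw [tangent_eval c b hx g.1 g.2.1 g.2.2 (hne _ _) y hy, if_pos hyb]
          simp only [h4]
          have h5 := congrFun hr ((y 0).2, (y 1).2, (y 2).2)
          simp only [Finset.sum_apply, Pi.smul_apply, smul_eq_mul] at h5
          rw [h5, sub_eq_zero, Pi.single_apply, Pi.single_apply]
          congr 1
          rw [eq_iff_iff]
          constructor
          · intro h; rw [h]
          · intro h
            simp only [Prod.mk.injEq] at h
            funext s
            apply Prod.ext (hyb s)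
            fin_cases s
            · exact h.1
            · exact h.2.1
            · exact h.2.2
        · have h4 : ∀ g : Fin 3 × Fin 3 × Fin 3, pt (update (Pp c (⟨(b (us g.1 g.2.1),
              b (vs g.1 g.2.1)), hne _ _⟩, g.2.1)) g.1 (Pi.single (b g.1, g.2.2) 1)) y = 0 := by
            intro g
            rw [tangent_eval c b hx g.1 g.2.1 g.2.2 (hne _ _) y hy, if_neg hyb]
          simp only [h4, mul_zero, Finset.sum_const_zero, sub_zero]
          rw [Pi.single_eq_of_ne]
          rintro rfl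
          exact hyb fun s => rfl
      have h6 : (Pi.single x 1 : (Fin 3 → H × Fin 3) → K) = Y + (Pi.single x 1 - Y) := by
        rw [add_sub_cancel]
      rw [h6]
      exact Submodule.add_mem_sup hY hd
    · exact Submodule.mem_sup_right (single_mem_qblk q hq x hx)

end Pool.Agent.TH140.MR
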