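import Pool.Agent.TH140.MR.Cube3

/-!
# The maximal rank of cubic tensors
-/

set_option autoImplicit false

open Function

namespace Pool.Agent.TH140.MR

section blocks

variable {K : Type*} [Field K]

/-- The nine coordinate tensors with index sum zero. -/
def q9 (K : Type*) [Field K] (p : Fin 3 × Fin 3) : Fin 3 → Fin 3 → K :=
  ![Pi.single p.1 1, Pi.single p.2 1, Pi.single (-(p.1 + p.2)) 1]

theorem exists_free (l : Fin 3) (y : Fin 3 → Fin 3) :
    ∃ k, ∀ s, s ≠ l → q9 K k s = Pi.single (y s) 1 := by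
  fin_cases l
  · refine ⟨(-(y 1 + y 2), y 1), fun s hs => ?_⟩
    fin_cases s
    · exact absurd rfl hs
    · simp [q9]
    · simp [q9]
  · refine ⟨(y 0, -(y 0 + y 2)), fun s hs => ?_⟩
    fin_cases s
    · simp [q9]
    · exact absurd rfl hs
    · simp [q9]
  · refine ⟨(y 0, y 1), fun s hs => ?_⟩
    fin_cases s
    · simp [q9]
    · simp [q9]
    · exact absurd rfl hs

/-- Twelve decomposable tensors with sum zero, from the cube roots of unity. -/
noncomputable def qC (ω : ℂ) : (Fin 3 × Fin 3) ⊕ Fin 3 → Fin 3 → Fin 3 → ℂ :=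
  Sum.elim (q9 ℂ) fun g => ![fun j => (ω ^ g.val) ^ j.val, fun j => (ω ^ g.val) ^ j.val,
      fun j => -(1 / 3) * (ω ^ g.val) ^ j.val]

theorem qC_sum (ω : ℂ) (hω : ω ^ 2 + ω + 1 = 0) (y : Fin 3 → Fin 3) :
    ∑ k, ∏ s, qC ω k s (y s) = 0 := by
  have h1 : ∀ a b c : Fin 3, ∑ k, (qC ω k 0 a * qC ω k 1 b * qC ω k 2 c) = 0 := by
    intro a b c
    rw [Fintype.sum_sum_type, Fintype.sum_prod_type]
    simp only [Fin.sum_univ_three, qC, q9, Sum.elim_inl, Sum.elim_inr, Matrix.cons_val_zero,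
      Matrix.cons_val_one, Matrix.cons_val_two, Pi.single_apply]
    fin_cases a <;> fin_cases b <;> fin_cases c <;> simp <;> grind
  have h2 := h1 (y 0) (y 1) (y 2)
  rw [← h2]
  refine Finset.sum_congr rfl fun k _ => ?_
  rw [Fin.prod_univ_three]

/-- Thirteen decomposable tensors with sum zero, with rational entries. -/
noncomputable def qR (K : Type*) [Field K] : (Fin 3 × Fin 3) ⊕ Fin 4 → Fin 3 → Fin 3 → K :=
  Sum.elim (q9 K) (![![fun _ => 1, fun _ => 1, fun _ => -(1 / 3)],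
    ![![2, -1, -1], ![2, -1, -1], fun j => -(1 / 9) * ![2, -1, -1] j],
    ![![-1, 2, -1], ![-1, 2, -1], fun j => -(1 / 9) * ![-1, 2, -1] j],
    ![![-1, -1, 2], ![-1, -1, 2], fun j => -(1 / 9) * ![-1, -1, 2] j]])

theorem qR_sum [CharZero K] (y : Fin 3 → Fin 3) : ∑ k, ∏ s, qR K k s (y s) = 0 := by
  have h1 : ∀ a b c : Fin 3, ∑ k, (qR K k 0 a * qR K k 1 b * qR K k 2 c) = 0 := by
    intro a b c
    rw [Fintype.sum_sum_type, Fintype.sum_prod_type]
    simp only [Fin.sum_univ_three, Fin.sum_univ_four, qR, q9, Sum.elim_inl, Sum.elim_inr,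
      Matrix.cons_val_zero, Matrix.cons_val_one, Matrix.cons_val_two, Pi.single_apply]
    have e1 : (-1 : Fin 3) = 2 := rfl
    have e2 : (-2 : Fin 3) = 1 := rfl
    fin_cases a <;> fin_cases b <;> fin_cases c <;> simp [e1, e2] <;> norm_num
  have h2 := h1 (y 0) (y 1) (y 2)
  rw [← h2]
  refine Finset.sum_congr rfl fun k _ => ?_
  rw [Fin.prod_univ_three]

end blocks

theorem card_pairs (h : ℕ) :
    Fintype.card ({p : Fin h × Fin h // p.1 ≠ p.2} × Fin 3) = 3 * (h * h - h) := by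
  rw [Fintype.card_prod, Fintype.card_fin, Fintype.card_subtype]
  have : (Finset.univ.filter fun p : Fin h × Fin h => p.1 ≠ p.2) = Finset.univ.offDiag := by
    ext p; simp [Finset.mem_offDiag]
  rw [this, Finset.offDiag_card, Finset.card_univ, Fintype.card_fin, mul_comm]

/-- Upper bound for the rank of tensors of format `n × n × n`, `n ≤ 3h`. -/
theorem cube_rankLE_nat {K : Type*} [RCLike K] {κ₀ : Type*} [Fintype κ₀]
    (q : κ₀ → Fin 3 → Fin 3 → K)
    (hq0 : ∀ y : Fin 3 → Fin 3, ∑ k, ∏ s, q k s (y s) = 0)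
    (hq : ∀ (l : Fin 3) (y : Fin 3 → Fin 3), ∃ k, ∀ s, s ≠ l → q k s = Pi.single (y s) 1)
    (n h : ℕ) (hn : n ≤ 3 * h) (T : (Fin 3 → Fin n) → K) :
    RankLE (3 * (h * h - h) + h * Fintype.card κ₀) T := by
  rcases Nat.eq_zero_or_pos n with rfl | hn0
  · have h1 : RankLE 0 T := ⟨fun k => k.elim0, funext fun x => (x 0).elim0⟩
    exact h1.mono (Nat.zero_le _)
  have h1 : ∀ k : Fin n, k.val / 3 < h := fun k => by have := k.2; omega
  have h2 : ∀ k : Fin n, k.val % 3 < 3 := fun k => Nat.mod_lt _ (by norm_num)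
  have h3 := RankLE.of_embed (K := K) (ι := Fin 3) (α := fun _ => Fin h × Fin 3)
    (β := fun _ => Fin n) (N := 3 * (h * h - h) + h * Fintype.card κ₀)
    (fun _ k => (⟨k.val / 3, h1 k⟩, ⟨k.val % 3, h2 k⟩))
    (fun _ a => if ha : 3 * a.1.val + a.2.val < n then ⟨3 * a.1.val + a.2.val, ha⟩ else ⟨0, hn0⟩)
    (fun _ k => by
      have : 3 * (k.val / 3) + k.val % 3 = k.val := Nat.div_add_mod _ _
      simp only
      rw [dif_pos (by rw [this]; exact k.2)]
      exact Fin.ext this) T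
  apply h3
  have h4 := cube_rankLE (H := Fin h) q hq0 hq (fun x : Fin 3 → Fin h × Fin 3 => T fun i =>
    if ha : 3 * (x i).1.val + (x i).2.val < n then ⟨3 * (x i).1.val + (x i).2.val, ha⟩
    else ⟨0, hn0⟩)
  rw [card_pairs, Fintype.card_prod, Fintype.card_fin] at h4
  exact h4

theorem maxRank_cube_complex (n h : ℕ) (hn : n ≤ 3 * h) :
    maxRank ℂ (fun _ : Fin 3 => n) ≤ 3 * h ^ 2 + 9 * h := by
  have hω : (⟨-1 / 2, √3 / 2⟩ : ℂ) ^ 2 + ⟨-1 / 2, √3 / 2⟩ + 1 = 0 := by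
    have h3 : √3 * √3 = 3 := Real.mul_self_sqrt (by norm_num)
    apply Complex.ext
    · simp [sq]
      linear_combination -(1 / 4) * h3
    · simp [sq]
      ring
  apply maxRank_le
  intro T
  have h1 := cube_rankLE_nat (qC ⟨-1 / 2, √3 / 2⟩) (qC_sum _ hω) (fun l y => by
    obtain ⟨k, hk⟩ := exists_free (K := ℂ) l y
    exact ⟨Sum.inl k, hk⟩) n h hn T
  refine h1.mono ?_
  simp only [Fintype.card_sum, Fintype.card_prod, Fintype.card_fin]
  have : h ≤ h * h := Nat.le_mul_self h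
  have h2 : h ^ 2 = h * h := sq h
  omega

theorem maxRank_cube_real (K : Type*) [RCLike K] (n h : ℕ) (hn : n ≤ 3 * h) :
    maxRank K (fun _ : Fin 3 => n) ≤ 3 * h ^ 2 + 10 * h := by
  apply maxRank_le
  intro T
  have h1 := cube_rankLE_nat (qR K) qR_sum (fun l y => by
    obtain ⟨k, hk⟩ := exists_free (K := K) l y
    exact ⟨Sum.inl k, hk⟩) n h hn T
  refine h1.mono ?_
  simp only [Fintype.card_sum, Fintype.card_prod, Fintype.card_fin]
  have : h ≤ h * h := Nat.le_mul_self h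
  have h2 : h ^ 2 = h * h := sq h
  omega

end Pool.Agent.TH140.MR
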