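import Pool.Agent.TH140.MR.Asymp

/-!
# The maximal rank of large formats is asymptotic to the parameter count
-/

set_option autoImplicit false

open Function

namespace Pool.Agent.TH140.MR

theorem exists_three {d : ℕ} (hd : 3 ≤ d) (n : Fin d → ℕ) :
    ∃ i₀ i₁ i₂ : Fin d, i₀ ≠ i₁ ∧ i₀ ≠ i₂ ∧ i₁ ≠ i₂ ∧ (∀ i, n i ≤ n i₀) ∧
      ∀ i, i ≠ i₀ → n i ≤ n i₁ := by
  obtain ⟨i₀, -, h0⟩ := Finset.exists_max_image Finset.univ n
    ⟨⟨0, by omega⟩, Finset.mem_univ _⟩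
  have hne : (Finset.univ.erase i₀).Nonempty := by
    rw [← Finset.card_pos, Finset.card_erase_of_mem (Finset.mem_univ _), Finset.card_univ,
      Fintype.card_fin]
    omega
  obtain ⟨i₁, hi₁, h1⟩ := Finset.exists_max_image (Finset.univ.erase i₀) n hne
  have hne2 : ((Finset.univ.erase i₀).erase i₁).Nonempty := by
    rw [← Finset.card_pos, Finset.card_erase_of_mem hi₁,
      Finset.card_erase_of_mem (Finset.mem_univ _), Finset.card_univ, Fintype.card_fin]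
    omega
  obtain ⟨i₂, hi₂⟩ := hne2
  simp only [Finset.mem_erase, Finset.mem_univ, and_true] at hi₁ hi₂
  exact ⟨i₀, i₁, i₂, Ne.symm hi₁, Ne.symm hi₂.2, Ne.symm hi₂.1,
    fun i => h0 i (Finset.mem_univ _), fun i hi => h1 i (by simp [hi])⟩

theorem maxRank_le_slices {K : Type*} [Field K] {d : ℕ} (n : Fin d → ℕ) (i₀ : Fin d) :
    maxRank K n ≤ ∏ j : {j : Fin d // j ≠ i₀}, n j := by
  apply maxRank_le
  intro T
  have := rankLE_slices i₀ T
  simpa using this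

theorem one_add_pow_le (u : ℝ) (h0 : 0 ≤ u) (h1 : u ≤ 1) (m : ℕ) :
    (1 + 2 * u) ^ m ≤ 1 + (3 ^ m - 1) * u := by
  induction m with
  | zero => simp
  | succ m ih =>
    have h3 : (1 : ℝ) ≤ 3 ^ m := one_le_pow₀ (by norm_num)
    have h4 : u * u ≤ u := by nlinarith
    calc (1 + 2 * u) ^ (m + 1) = (1 + 2 * u) ^ m * (1 + 2 * u) := pow_succ _ _
      _ ≤ (1 + (3 ^ m - 1) * u) * (1 + 2 * u) :=
          mul_le_mul_of_nonneg_right ih (by positivity)
      _ = 1 + (3 ^ m + 1) * u + 2 * (3 ^ m - 1) * (u * u) := by ring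
      _ ≤ 1 + (3 ^ m + 1) * u + 2 * (3 ^ m - 1) * u := by nlinarith
      _ = 1 + (3 ^ (m + 1) - 1) * u := by ring

/-- The factor in the main estimate, for `x = y⁻³` and `M = y + d`. -/
theorem factor_le (k y : ℝ) (d : ℕ) (hd : 3 ≤ d) (hy : 2 ≤ y) (hk : y / 2 ≤ k) (hky : k ≤ y) :
    (1 + 2 * k * (1 / y ^ 3)) ^ d * (1 + 2 * k * (y + d) * (1 / y ^ 3)) * (1 + 1 / k) /
      (1 - k * (1 / y ^ 3)) ≤ 1 + (2 * d + 3) * 3 ^ (d + 2) * (1 / y) := by
  have hy0 : 0 < y := by linarith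
  have hk0 : 0 < k := by linarith
  have hd' : (3 : ℝ) ≤ d := by exact_mod_cast hd
  set u : ℝ := 1 / y with hu
  have hu0 : 0 < u := by positivity
  have hu2 : u ≤ 1 / 2 := by
    rw [hu]; exact one_div_le_one_div_of_le (by norm_num) hy
  have huy : u * y = 1 := by rw [hu]; field_simp
  have hx : 1 / y ^ 3 = u ^ 3 := by rw [hu, one_div_pow]
  rw [hx]
  have hkx : k * u ^ 3 ≤ u ^ 2 := by
    calc k * u ^ 3 ≤ y * u ^ 3 := mul_le_mul_of_nonneg_right hky (by positivity)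
      _ = (u * y) * u ^ 2 := by ring
      _ = u ^ 2 := by rw [huy, one_mul]
  have hkx' : k * u ^ 3 ≤ u * (1 / 2) := by
    calc k * u ^ 3 ≤ u ^ 2 := hkx
      _ = u * u := by ring
      _ ≤ u * (1 / 2) := mul_le_mul_of_nonneg_left hu2 hu0.le
  have hkx0 : 0 ≤ k * u ^ 3 := by positivity
  have f1 : (1 + 2 * k * u ^ 3) ^ d ≤ (1 + 2 * u) ^ d := by
    apply pow_le_pow_left₀ (by positivity)
    linarith
  have f2 : 1 + 2 * k * (y + d) * u ^ 3 ≤ 1 + 2 * (d + 1) * u := by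
    have h1 : y + d ≤ (d + 1) * y := by nlinarith
    have h2 : 2 * k * (y + d) * u ^ 3 ≤ 2 * (d + 1) * u := by
      calc 2 * k * (y + d) * u ^ 3 = 2 * (y + d) * (k * u ^ 3) := by ring
        _ ≤ 2 * ((d + 1) * y) * (u ^ 2) := by
            apply mul_le_mul _ hkx hkx0 (by positivity)
            linarith
        _ = 2 * (d + 1) * u * (u * y) := by ring
        _ = 2 * (d + 1) * u := by rw [huy, mul_one]
    linarith
  have f3 : 1 + 1 / k ≤ 1 + 2 * u := by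
    have : 1 / k ≤ 1 / (y / 2) := one_div_le_one_div_of_le (by positivity) hk
    have e : 1 / (y / 2) = 2 * u := by rw [hu]; field_simp
    linarith
  have hden : 0 < 1 - k * u ^ 3 := by nlinarith
  have f4 : 1 / (1 - k * u ^ 3) ≤ 1 + 2 * u := by
    rw [div_le_iff₀ hden]
    have h5 : (1 + 2 * u) * (u * (1 / 2)) ≤ 2 * u := by nlinarith
    have h6 : (1 + 2 * u) * (k * u ^ 3) ≤ (1 + 2 * u) * (u * (1 / 2)) :=
      mul_le_mul_of_nonneg_left hkx' (by positivity)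
    nlinarith
  have p2 : 0 ≤ 1 + 2 * k * (y + d) * u ^ 3 := by positivity
  have p3 : 0 ≤ 1 + 1 / k := by positivity
  calc (1 + 2 * k * u ^ 3) ^ d * (1 + 2 * k * (y + d) * u ^ 3) * (1 + 1 / k) / (1 - k * u ^ 3)
      = (1 + 2 * k * u ^ 3) ^ d * (1 + 2 * k * (y + d) * u ^ 3) * (1 + 1 / k) *
        (1 / (1 - k * u ^ 3)) := by rw [mul_one_div]
    _ ≤ (1 + 2 * u) ^ d * (1 + 2 * (d + 1) * u) * (1 + 2 * u) * (1 + 2 * u) := by
        apply mul_le_mul _ f4 (by positivity) (by positivity)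
        apply mul_le_mul _ f3 p3 (by positivity)
        exact mul_le_mul f1 f2 p2 (by positivity)
    _ = (1 + 2 * u) ^ (d + 2) * (1 + 2 * (d + 1) * u) := by ring
    _ ≤ (1 + (3 ^ (d + 2) - 1) * u) * (1 + 2 * (d + 1) * u) := by
        apply mul_le_mul_of_nonneg_right (one_add_pow_le u hu0.le (by linarith) _)
        positivity
    _ = 1 + (3 ^ (d + 2) - 1 + 2 * (d + 1)) * u +
        (3 ^ (d + 2) - 1) * (2 * (d + 1)) * (u * u) := by ring
    _ ≤ 1 + (3 ^ (d + 2) - 1 + 2 * (d + 1)) * u +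
        (3 ^ (d + 2) - 1) * (2 * (d + 1)) * u := by
        have h3 : (1 : ℝ) ≤ 3 ^ (d + 2) := one_le_pow₀ (by norm_num)
        have h4 : u * u ≤ u := by nlinarith
        have : (3 ^ (d + 2) - 1) * (2 * ((d : ℝ) + 1)) * (u * u) ≤
            (3 ^ (d + 2) - 1) * (2 * (d + 1)) * u := by
          apply mul_le_mul_of_nonneg_left h4
          apply mul_nonneg (by linarith) (by positivity)
        linarith
    _ = 1 + ((2 * d + 3) * 3 ^ (d + 2) - 1) * u := by ring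
    _ ≤ 1 + (2 * d + 3) * 3 ^ (d + 2) * u := by nlinarith

/-- Uniform explicit upper bound for all formats. -/
theorem maxRank_upper (K : Type*) [RCLike K] {d : ℕ} (hd : 3 ≤ d) (n : Fin d → ℕ) (m : ℕ)
    (hm : 0 < m) (hn : ∀ i, m ≤ n i) :
    (maxRank K n : ℝ) ≤ (1 + (2 * d + 3) * 3 ^ (d + 2) / (m : ℝ) ^ ((1 : ℝ) / 3)) *
      ((∏ i, (n i : ℝ)) / ∑ i, (n i : ℝ)) := by
  obtain ⟨i₀, i₁, i₂, h01, h02, h12, hmax, hmax1⟩ := exists_three hd n
  have hm0 : (0 : ℝ) < m := by exact_mod_cast hm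
  have hm1 : (1 : ℝ) ≤ m := by exact_mod_cast hm
  have hdpos : (3 : ℝ) ≤ d := by exact_mod_cast hd
  set y : ℝ := (m : ℝ) ^ ((1 : ℝ) / 3) with hy
  have hy1 : 1 ≤ y := Real.one_le_rpow hm1 (by norm_num)
  have hy0 : 0 < y := by linarith
  have hy3 : y ^ 3 = m := by
    rw [hy, ← Real.rpow_natCast, ← Real.rpow_mul hm0.le]
    norm_num
  have hnpos : ∀ i, (0 : ℝ) < n i := fun i => lt_of_lt_of_le hm0 (by exact_mod_cast hn i)
  have hSpos : (0 : ℝ) < ∑ i, (n i : ℝ) :=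
    Finset.sum_pos (fun i _ => hnpos i) ⟨i₀, Finset.mem_univ _⟩
  have hPpos : (0 : ℝ) < ∏ i, (n i : ℝ) := Finset.prod_pos fun i _ => hnpos i
  have hSle : ∑ i, (n i : ℝ) ≤ n i₀ + (d - 1) * n i₁ := by
    rw [← Finset.add_sum_erase Finset.univ _ (Finset.mem_univ i₀)]
    have : ∑ i ∈ Finset.univ.erase i₀, (n i : ℝ) ≤ ∑ i ∈ Finset.univ.erase i₀, (n i₁ : ℝ) := by
      apply Finset.sum_le_sum
      intro i hi
      exact_mod_cast hmax1 i (Finset.ne_of_mem_erase hi)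
    rw [Finset.sum_const, Finset.card_erase_of_mem (Finset.mem_univ _), Finset.card_univ,
      Fintype.card_fin, nsmul_eq_mul, Nat.cast_sub (by omega : 1 ≤ d), Nat.cast_one] at this
    linarith
  have hslices : ∀ c : ℝ, ∑ i, (n i : ℝ) ≤ c * n i₀ →
      (maxRank K n : ℝ) ≤ c * ((∏ i, (n i : ℝ)) / ∑ i, (n i : ℝ)) := by
    intro c h4
    have h1 : (maxRank K n : ℝ) ≤ ∏ j : {j : Fin d // j ≠ i₀}, (n j : ℝ) := by
      exact_mod_cast maxRank_le_slices (K := K) n i₀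
    have h2 : ∏ i, (n i : ℝ) = n i₀ * ∏ j : {j : Fin d // j ≠ i₀}, (n j : ℝ) :=
      Fintype.prod_eq_mul_prod_subtype_ne _ i₀
    have h3 : 0 < ∏ j : {j : Fin d // j ≠ i₀}, (n j : ℝ) := Finset.prod_pos fun j _ => hnpos j
    refine h1.trans ?_
    rw [h2, ← mul_div_assoc, le_div_iff₀ hSpos]
    calc (∏ j : {j : Fin d // j ≠ i₀}, (n j : ℝ)) * ∑ i, (n i : ℝ)
        ≤ (∏ j : {j : Fin d // j ≠ i₀}, (n j : ℝ)) * (c * n i₀) :=
          mul_le_mul_of_nonneg_left h4 h3.le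
      _ = _ := by ring
  have hn1 := hnpos i₁
  have hn0 := hnpos i₀
  have hn10 : (n i₁ : ℝ) ≤ n i₀ := by exact_mod_cast hmax i₁
  have h3pow : (1 : ℝ) ≤ 3 ^ (d + 2) := one_le_pow₀ (by norm_num)
  have hCd : (2 * (d : ℝ) + 3) ≤ (2 * d + 3) * 3 ^ (d + 2) :=
    le_mul_of_one_le_right (by positivity) h3pow
  rcases lt_or_ge y 2 with hy2 | hy2
  · -- small formats
    refine (hslices d ?_).trans ?_
    · nlinarith
    · apply mul_le_mul_of_nonneg_right _ (by positivity)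
      have : (d : ℝ) ≤ (2 * d + 3) * 3 ^ (d + 2) / y := by
        rw [le_div_iff₀ hy0]
        nlinarith
      linarith
  by_cases hc : (n i₀ : ℝ) ≤ y * n i₁
  · -- balanced formats
    obtain ⟨l, hl1, hl2⟩ := exists_nat_pow_near hy1 (show (1 : ℝ) < 2 by norm_num)
    have hk : y / 2 ≤ (2 : ℝ) ^ l := by
      rw [pow_succ] at hl2
      linarith
    have hM : ∑ i, (n i : ℝ) ≤ (y + d) * n i₁ := by nlinarith
    have hx0 : (0 : ℝ) < 1 / y ^ 3 := by positivity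
    have hx1 : 2 * (2 : ℝ) ^ l * (1 / y ^ 3) < 1 := by
      rw [mul_one_div, div_lt_one (by positivity)]
      have h5 : y * y = y ^ 2 := by ring
      have h6 : 2 * 2 ≤ y * y := by nlinarith
      calc 2 * (2 : ℝ) ^ l ≤ 2 * y := by linarith
        _ < (y * y) * y := by nlinarith
        _ = y ^ 3 := by ring
    have hxn : ∀ i, 1 ≤ (1 / y ^ 3) * n i := by
      intro i
      rw [hy3, one_div_mul_eq_div, le_div_iff₀ hm0, one_mul]
      exact_mod_cast hn i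
    have h := maxRank_le_real K n l h01 h02 h12 hd hmax (y + d) hM (1 / y ^ 3) hx0 hx1 hxn
    refine h.trans ?_
    apply mul_le_mul_of_nonneg_right _ (by positivity)
    have := factor_le (2 ^ l) y d hd hy2 hk hl1
    rw [mul_one_div _ y] at this
    exact this
  · -- unbalanced formats
    push Not at hc
    refine (hslices (1 + d / y) ?_).trans ?_
    · have h5 : (d : ℝ) * n i₁ ≤ d / y * n i₀ := by
        rw [div_mul_eq_mul_div, le_div_iff₀ hy0]
        nlinarith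
      nlinarith
    · apply mul_le_mul_of_nonneg_right _ (by positivity)
      have : (d : ℝ) / y ≤ (2 * d + 3) * 3 ^ (d + 2) / y := by
        apply div_le_div_of_nonneg_right _ hy0.le
        linarith
      linarith

theorem maxRank_lower {d : ℕ} (hd : 1 ≤ d) (K : Type*) [RCLike K] (n : Fin d → ℕ)
    (hn : ∀ i, 0 < n i) : (∏ i, (n i : ℝ)) / ∑ i, (n i : ℝ) ≤ maxRank K n := by
  have : NeZero d := ⟨by omega⟩
  have hS : (0 : ℝ) < ∑ i, (n i : ℝ) :=
    Finset.sum_pos (fun i _ => by exact_mod_cast hn i) ⟨⟨0, by omega⟩, Finset.mem_univ _⟩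
  rw [div_le_iff₀ hS]
  exact_mod_cast prod_le_maxRank_mul (K := K) n

end Pool.Agent.TH140.MR
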