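import Pool.Agent.TH140.MR.Local3
import Pool.Agent.TH140.MR.Basic

/-!
# Generic points supported on pairs of blocks
-/

set_option autoImplicit false

open Function

namespace Pool.Agent.TH140.MR

/-- For the free slot `ρ` and the type `t`: the slot which lies in the first block of the pair. -/
def us (ρ t : Fin 3) : Fin 3 := ![![1, 1, 2], ![0, 0, 0], ![1, 0, 0]] ρ t

/-- The slot which lies in the second block of the pair. -/
def vs (ρ t : Fin 3) : Fin 3 := ![![2, 2, 1], ![2, 2, 2], ![0, 1, 1]] ρ t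

/-- The slots of the point of type `t` which have a component in the first block. -/
def mu (t s : Fin 3) : Bool := ![![true, true, false], ![true, true, false], ![true, false, true]] t s

/-- The slots of the point of type `t` which have a component in the second block. -/
def mv (t s : Fin 3) : Bool := ![![true, false, true], ![false, true, true], ![false, true, true]] t s

theorem us_ne_vs (ρ t : Fin 3) : us ρ t ≠ vs ρ t := by
  revert ρ t; decide

theorem mu_us (ρ t : Fin 3) : mu t (us ρ t) = true := by revert ρ t; decide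

theorem mv_vs (ρ t : Fin 3) : mv t (vs ρ t) = true := by revert ρ t; decide

theorem m_swap (ρ t : Fin 3) : mv t (us ρ t) = false ∨ mu t (vs ρ t) = false := by
  revert ρ t; decide

theorem us_ne (ρ t : Fin 3) : us ρ t ≠ ρ := by revert ρ t; decide

theorem vs_ne (ρ t : Fin 3) : vs ρ t ≠ ρ := by revert ρ t; decide

theorem prod_slots {R : Type*} [CommMonoid R] (ρ t : Fin 3) (f : Fin 3 → R) :
    ∏ s, f s = f ρ * (f (us ρ t) * f (vs ρ t)) := by
  rw [Fin.prod_univ_three]
  fin_cases ρ <;> fin_cases t <;> simp [us, vs, mul_assoc, mul_comm] <;>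
    exact mul_left_comm _ _ _

theorem forall_slots (ρ t : Fin 3) (p : Fin 3 → Prop) :
    (∀ s, p s) ↔ p ρ ∧ p (us ρ t) ∧ p (vs ρ t) := by
  constructor
  · intro h; exact ⟨h _, h _, h _⟩
  · rintro ⟨h1, h2, h3⟩ s
    have key : ∀ ρ t s : Fin 3, s = ρ ∨ s = us ρ t ∨ s = vs ρ t := by decide
    rcases key ρ t s with h | h | h
    · rw [h]; exact h1
    · rw [h]; exact h2
    · rw [h]; exact h3

theorem locv_slots {R : Type*} [CommSemiring R] (V : Fin 3 → Fin 3 → Fin 3 → Fin 3 → R)
    (ρ t e : Fin 3) (z : Fin 3 → Fin 3) :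
    locv V (ρ, t, e) (z 0, z 1, z 2) = (if z ρ = e then 1 else 0) *
      (V ρ t (us ρ t) (z (us ρ t)) * V ρ t (vs ρ t) (z (vs ρ t))) := by
  have h1 : locv V (ρ, t, e) (z 0, z 1, z 2) =
      ∏ s, (if s = ρ then (if z s = e then 1 else 0) else V ρ t s (z s)) := by
    rw [Fin.prod_univ_three]
    rfl
  rw [h1, prod_slots ρ t, if_pos rfl, if_neg (us_ne ρ t), if_neg (vs_ne ρ t)]

variable {H : Type*}

/-- The parameters: the pair of blocks, the type, the slot, the side and the coordinate. -/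
abbrev Par (H : Type*) := (H × H) × Fin 3 × Fin 3 × Bool × Fin 3

/-- The parameter which is used in the position `b`. -/
def gv (b : Fin 3 → H) (ρ t s k : Fin 3) : Par H :=
  ((b (us ρ t), b (vs ρ t)), t, s, decide (s = vs ρ t), k)

theorem locv_map {R S : Type*} [CommSemiring R] [CommSemiring S] (φ : R →+* S)
    (V : Fin 3 → Fin 3 → Fin 3 → Fin 3 → R) (g y : Fin 3 × Fin 3 × Fin 3) :
    φ (locv V g y) = locv (fun ρ t s k => φ (V ρ t s k)) g y := by
  simp only [locv, map_mul]
  congr 1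
  · congr 1
    · split_ifs <;> simp
    · split_ifs <;> simp
  · split_ifs <;> simp

theorem locv_congr {R : Type*} [CommSemiring R] (V W : Fin 3 → Fin 3 → Fin 3 → Fin 3 → R)
    (h : ∀ ρ t s k, s ≠ ρ → V ρ t s k = W ρ t s k) : locv V = locv W := by
  funext g y
  simp only [locv]
  congr 1
  · congr 1
    · split_ifs with h1 h2
      · rfl
      · rfl
      · exact h _ _ _ _ h1
    · split_ifs with h1 h2
      · rfl
      · rfl
      · exact h _ _ _ _ h1
  · split_ifs with h1 h2
    · rfl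
    · rfl
    · exact h _ _ _ _ h1

/-- The special values of the parameters for the position `b`. -/
noncomputable def cz (K : Type*) [Field K] [DecidableEq H] (b : Fin 3 → H) : Par H → K := fun p =>
  Tab K (if b 0 ≠ p.1.1 ∧ b 0 ≠ p.1.2 then 0 else if b 1 ≠ p.1.1 ∧ b 1 ≠ p.1.2 then 1 else 2)
    p.2.1 p.2.2.1 p.2.2.2.2

theorem cz_gv (K : Type*) [Field K] [DecidableEq H] (b : Fin 3 → H) (hb : Injective b)
    (ρ t s k : Fin 3) : cz K b (gv b ρ t s k) = Tab K ρ t s k := by
  have h : (if b 0 ≠ b (us ρ t) ∧ b 0 ≠ b (vs ρ t) then (0 : Fin 3) else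
      if b 1 ≠ b (us ρ t) ∧ b 1 ≠ b (vs ρ t) then 1 else 2) = ρ := by
    simp only [hb.ne_iff]
    clear hb b
    revert ρ t
    decide
  exact congrArg (fun r => Tab K r t s k) h

theorem exists_generic3 (K : Type*) [Field K] [Infinite K] [Fintype H] [DecidableEq H] :
    ∃ c : Par H → K, ∀ b : Fin 3 → H, Injective b →
      Submodule.span K (Set.range (locv fun ρ t s k => c (gv b ρ t s k))) = ⊤ := by
  have h1 : ∀ b : {b : Fin 3 → H // Injective b}, ∃ D : MvPolynomial (Par H) K, D ≠ 0 ∧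
      ∀ c : Par H → K, MvPolynomial.eval c D ≠ 0 →
        Submodule.span K (Set.range (locv fun ρ t s k => c (gv b.1 ρ t s k))) = ⊤ := by
    intro b
    have h2 := exists_poly (K := K) (σ := Par H)
      (locv fun ρ t s k => (MvPolynomial.X (gv b.1 ρ t s k) : MvPolynomial (Par H) K)) (cz K b.1)
    have h3 : ∀ c : Par H → K, (fun (g y : Fin 3 × Fin 3 × Fin 3) => MvPolynomial.eval c
        (locv (fun ρ t s k => (MvPolynomial.X (gv b.1 ρ t s k) : MvPolynomial (Par H) K)) g y)) =
        locv fun ρ t s k => c (gv b.1 ρ t s k) := by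
      intro c
      funext g y
      rw [locv_map]
      simp only [MvPolynomial.eval_X]
    simp only [h3] at h2
    apply h2
    have h4 : (fun ρ t s k => cz K b.1 (gv b.1 ρ t s k)) = Tab K := by
      funext ρ t s k
      exact cz_gv K b.1 b.2 ρ t s k
    rw [h4]
    exact loc_span K
  choose D hD hD2 using h1
  obtain ⟨c, hc⟩ := exists_common D hD
  exact ⟨c, fun b hb => hD2 ⟨b, hb⟩ c (hc ⟨b, hb⟩)⟩

/-- The point number `(u, v), t`. -/
def Pp {K : Type*} [Field K] [DecidableEq H] (c : Par H → K) (p : {p : H × H // p.1 ≠ p.2} × Fin 3)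
    (s : Fin 3) (w : H × Fin 3) : K :=
  (if w.1 = p.1.1.1 ∧ mu p.2 s = true then c (p.1.1, p.2, s, false, w.2) else 0) +
  (if w.1 = p.1.1.2 ∧ mv p.2 s = true then c (p.1.1, p.2, s, true, w.2) else 0)

theorem two_slots {K : Type*} [Field K] [DecidableEq H] (u v w w' : H) (huv : u ≠ v) (hw : w ≠ w')
    (m1 m2 m3 m4 : Bool) (p1 p2 p3 p4 : K) (h1 : m1 = true) (h4 : m4 = true)
    (h23 : m2 = false ∨ m3 = false) :
    ((if w = u ∧ m1 = true then p1 else 0) + (if w = v ∧ m2 = true then p2 else 0)) *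
    ((if w' = u ∧ m3 = true then p3 else 0) + (if w' = v ∧ m4 = true then p4 else 0)) =
    if w = u ∧ w' = v then p1 * p4 else 0 := by
  subst h1 h4
  by_cases hwu : w = u
  · subst hwu
    have hwv : w ≠ v := huv
    have hw'u : w' ≠ w := fun h => hw h.symm
    simp [hwv, hw'u]
  · by_cases hwv : w = v
    · subst hwv
      have hw'v : w' ≠ w := fun h => hw h.symm
      rcases h23 with rfl | rfl
      · simp [hwu]
      · simp [hwu, hw'v]
    · simp [hwu, hwv]

/-- The value at the positions with three different blocks of the tangent vectors. -/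
theorem tangent_eval {K : Type*} [Field K] [DecidableEq H] (c : Par H → K) (b : Fin 3 → H)
    (hb : Injective b) (ρ t e : Fin 3) (hne : b (us ρ t) ≠ b (vs ρ t))
    (y : Fin 3 → H × Fin 3) (hy : Injective fun s => (y s).1) :
    pt (update (Pp c (⟨(b (us ρ t), b (vs ρ t)), hne⟩, t)) ρ (Pi.single (b ρ, e) 1)) y =
      if (∀ s, (y s).1 = b s) then
        locv (fun ρ t s k => c (gv b ρ t s k)) (ρ, t, e) ((y 0).2, (y 1).2, (y 2).2) else 0 := by
  unfold pt
  rw [prod_slots ρ t, update_self, update_of_ne (us_ne ρ t), update_of_ne (vs_ne ρ t)]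
  unfold Pp
  simp only
  rw [two_slots _ _ _ _ hne (hy.ne (us_ne_vs ρ t)) _ _ _ _ _ _ _ _ (mu_us ρ t) (mv_vs ρ t)
    (m_swap ρ t)]
  have hfa := forall_slots ρ t fun s => (y s).1 = b s
  have h1 : (Pi.single (b ρ, e) (1 : K) : H × Fin 3 → K) (y ρ) =
      if (y ρ).1 = b ρ ∧ (y ρ).2 = e then 1 else 0 := by
    rw [Pi.single_apply]
    congr 1
    rw [Prod.ext_iff]
  rw [h1]
  by_cases h2 : (y ρ).1 = b ρ
  · by_cases h3 : (y (us ρ t)).1 = b (us ρ t) ∧ (y (vs ρ t)).1 = b (vs ρ t)
    · rw [if_pos h3, if_pos (hfa.2 ⟨h2, h3⟩)]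
      have h4 : ((y ρ).1 = b ρ ∧ (y ρ).2 = e) ↔ (y ρ).2 = e := by simp [h2]
      have h5 := locv_slots (fun ρ t s k => c (gv b ρ t s k)) ρ t e (fun s => (y s).2)
      rw [h5]
      simp only [h4]
      have h6 : ∀ k, gv b ρ t (us ρ t) k = ((b (us ρ t), b (vs ρ t)), t, us ρ t, false, k) := by
        intro k
        simp [gv, us_ne_vs]
      have h7 : ∀ k, gv b ρ t (vs ρ t) k = ((b (us ρ t), b (vs ρ t)), t, vs ρ t, true, k) := by
        intro k
        simp [gv]
      rw [h6, h7]
    · rw [if_neg h3, if_neg (fun h => h3 (hfa.1 h).2), mul_zero]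
  · rw [if_neg (fun h => h2 h.1), if_neg (fun h => h2 (hfa.1 h).1), zero_mul]

end Pool.Agent.TH140.MR
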