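import Pool.Agent.TH140.MR.Generic

/-!
# A perfect local configuration in dimension three, and its generic version
-/

set_option autoImplicit false

open Function

namespace Pool.Agent.TH140.MR

/-- The decomposable tensor of order three number `g = (ρ, t, e)`: the factor in the slot `ρ` is the
basis vector `e`, the factors in the other slots are `V ρ t s`. -/
def locv {R : Type*} [CommSemiring R] (V : Fin 3 → Fin 3 → Fin 3 → Fin 3 → R)
    (g : Fin 3 × Fin 3 × Fin 3) (y : Fin 3 × Fin 3 × Fin 3) : R :=
  (if (0 : Fin 3) = g.1 then (if y.1 = g.2.2 then 1 else 0) else V g.1 g.2.1 0 y.1) *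
  (if (1 : Fin 3) = g.1 then (if y.2.1 = g.2.2 then 1 else 0) else V g.1 g.2.1 1 y.2.1) *
  (if (2 : Fin 3) = g.1 then (if y.2.2 = g.2.2 then 1 else 0) else V g.1 g.2.1 2 y.2.2)

/-- The special configuration. -/
def Tab (K : Type*) [Field K] (ρ t s k : Fin 3) : K :=
  if ρ = 0 then (if k = t then 1 else 0)
  else if ρ = 1 then (if s = 0 then (if k = t then 1 else 0) else
    (if k = t ∨ k = t + 1 then 1 else 0))
  else (if s = 0 then (if k = t ∨ k = t + 1 then 1 else 0) else (if k = t then 0 else 1))

theorem loc_zero {K : Type*} [Field K] (φ : Fin 3 → Fin 3 → Fin 3 → K)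
    (h1 : ∀ t e, φ e t t = 0)
    (h2 : ∀ t e, φ t e t + φ t e (t + 1) = 0)
    (h3 : ∀ t e, φ t (t+1) e + φ t (t+2) e + φ (t+1) (t+1) e + φ (t+1) (t+2) e = 0) :
    ∀ i j k, φ i j k = 0 := by
  have a00 := h1 0 0
  have a01 := h1 0 1
  have a02 := h1 0 2
  have a10 := h1 1 0
  have a11 := h1 1 1
  have a12 := h1 1 2
  have a20 := h1 2 0
  have a21 := h1 2 1
  have a22 := h1 2 2
  have b00 := h2 0 0
  have b01 := h2 0 1
  have b02 := h2 0 2
  have b10 := h2 1 0
  have b11 := h2 1 1
  have b12 := h2 1 2
  have b20 := h2 2 0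
  have b21 := h2 2 1
  have b22 := h2 2 2
  have c00 := h3 0 0
  have c01 := h3 0 1
  have c02 := h3 0 2
  have c10 := h3 1 0
  have c11 := h3 1 1
  have c12 := h3 1 2
  have c20 := h3 2 0
  have c21 := h3 2 1
  have c22 := h3 2 2
  simp only [Fin.reduceAdd] at *
  intro i j k
  fin_cases i <;> fin_cases j <;> fin_cases k <;>
    simp only [Fin.zero_eta, Fin.mk_one, Fin.reduceFinMk] <;> grind

theorem loc_span (K : Type*) [Field K] :
    Submodule.span K (Set.range (locv (Tab K))) = ⊤ := by
  by_contra hcon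
  obtain ⟨f, hf0, hf⟩ := Submodule.exists_le_ker_of_lt_top _ (lt_top_iff_ne_top.2 hcon)
  have hv : ∀ v : Fin 3 × Fin 3 × Fin 3 → K, f v = ∑ y, v y * f (Pi.single y 1) := by
    intro v
    have := LinearMap.pi_apply_eq_sum_univ f v
    rw [this]
    refine Finset.sum_congr rfl fun y _ => ?_
    rw [smul_eq_mul]
    congr 2
    funext z
    simp [Pi.single_apply, eq_comm]
  have hg : ∀ g, ∑ y, locv (Tab K) g y * f (Pi.single y 1) = 0 := by
    intro g
    rw [← hv]
    exact hf (Submodule.subset_span ⟨g, rfl⟩)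
  have hz : ∀ i j k, f (Pi.single (i, j, k) 1) = 0 := by
    apply loc_zero
    · intro t e
      have := hg (0, t, e)
      simp only [Fintype.sum_prod_type, Fin.sum_univ_three] at this
      fin_cases t <;> fin_cases e <;> simpa [locv, Tab] using this
    · intro t e
      have := hg (1, t, e)
      simp only [Fintype.sum_prod_type, Fin.sum_univ_three] at this
      fin_cases t <;> fin_cases e <;> simpa [locv, Tab, add_comm] using this
    · intro t e
      have := hg (2, t, e)
      simp only [Fintype.sum_prod_type, Fin.sum_univ_three] at this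
      fin_cases t <;> fin_cases e <;> simp [locv, Tab] at this ⊢ <;> linear_combination this
  apply hf0
  ext v
  rw [LinearMap.comp_apply, LinearMap.zero_comp, LinearMap.zero_apply]
  obtain ⟨i, j, k⟩ := v
  exact hz i j k

end Pool.Agent.TH140.MR
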