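import Pool.Agent.TH140.MR.Config

/-!
# Existence of configurations with spanning tangent spaces
-/

set_option autoImplicit false

open Function

namespace Pool.Agent.TH140.MR

variable {K : Type*} [Field K] {ι : Type*} [Fintype ι] [DecidableEq ι] {α : ι → Type*}
  [∀ i, Fintype (α i)] [∀ i, DecidableEq (α i)] {i₀ i₁ i₂ : ι} {q ρ y z : ℕ}

/-- Points in other blocks. -/
abbrev K1 (ρ : ℕ) (lam : Loc α i₀ i₁ i₂ q) := {b : Fin q // b ≠ lam.1} × (Bool × Fin ρ)

/-- Pairs of points in neighbouring locations. -/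
abbrev K2 (ρ : ℕ) (lam : Loc α i₀ i₁ i₂ q) :=
  (Σ l : Mid i₀ i₁ i₂, {x : α l // x ≠ lam.2 l}) × Fin ρ

/-- The relevant points for a location. -/
def injO (lam : Loc α i₀ i₁ i₂ q) :
    (Bool × Fin ρ) ⊕ K1 ρ lam ⊕ (K2 ρ lam × Bool) → PIx α i₀ i₁ i₂ q ρ
  | Sum.inl j => (lam, j)
  | Sum.inr (Sum.inl k) => ((k.1.1, lam.2), k.2)
  | Sum.inr (Sum.inr k) => ((lam.1, update lam.2 k.1.1.1 k.1.1.2.1), (k.2, k.1.2))

theorem injO_injective (lam : Loc α i₀ i₁ i₂ q) : Injective (injO (ρ := ρ) lam) := by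
  rintro (j | ⟨⟨b, hb⟩, j⟩ | ⟨⟨⟨l, x, hx⟩, t⟩, β⟩) (j' | ⟨⟨b', hb'⟩, j'⟩ | ⟨⟨⟨l', x', hx'⟩, t'⟩, β'⟩) h
  · simp only [injO, Prod.mk.injEq] at h
    rw [h.2]
  · exfalso
    simp only [injO, Prod.mk.injEq] at h
    exact hb' (congrArg Prod.fst h.1).symm
  · exfalso
    simp only [injO, Prod.mk.injEq] at h
    have h1 := congrFun (congrArg Prod.snd h.1) l'
    simp only [update_self] at h1
    exact hx' h1.symm
  · exfalso
    simp only [injO, Prod.mk.injEq] at h
    exact hb (congrArg Prod.fst h.1)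
  · simp only [injO, Prod.mk.injEq] at h
    obtain ⟨⟨h1, -⟩, h2⟩ := h
    subst h1; subst h2; rfl
  · exfalso
    simp only [injO, Prod.mk.injEq] at h
    exact hb h.1.1
  · exfalso
    simp only [injO, Prod.mk.injEq] at h
    have h1 := congrFun (congrArg Prod.snd h.1) l
    simp only [update_self] at h1
    exact hx h1
  · exfalso
    simp only [injO, Prod.mk.injEq] at h
    exact hb' h.1.1.symm
  · simp only [injO, Prod.mk.injEq] at h
    obtain ⟨⟨-, h1⟩, h2, h3⟩ := h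
    subst h2; subst h3
    by_cases hl : l = l'
    · subst hl
      have h4 := congrFun h1 l
      simp only [update_self] at h4
      subst h4
      rfl
    · exfalso
      have h4 := congrFun h1 l
      rw [update_self, update_of_ne hl] at h4
      exact hx h4

theorem exists_local [Infinite K] (e₁ : (Bool × Fin ρ) ⊕ Fin y ≃ α i₁)
    (e₂ : (Bool × Fin ρ) ⊕ Fin z ≃ α i₂) (lam : Loc α i₀ i₁ i₂ q)
    (hcard : Fintype.card (Units' ρ y z) ≤ Fintype.card (K1 ρ lam ⊕ K2 ρ lam)) :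
    ∃ cfg : Var α i₀ i₁ i₂ q ρ → K, Submodule.span K (Set.range (gvec cfg lam)) = ⊤ := by
  classical
  obtain ⟨g⟩ := Function.Embedding.nonempty_of_card_le hcard
  let τe : (Bool × Fin ρ) ↪ K :=
    (Fintype.equivFin (Bool × Fin ρ)).toEmbedding.trans
      (Fin.valEmbedding.trans (Infinite.natEmbedding K))
  let τ : Bool × Fin ρ → K := τe
  have hτ : Injective τ := τe.injective
  let D1 : K1 ρ lam ⊕ K2 ρ lam → (α i₁ → K) × (α i₂ → K) :=
    extend g (fun u => (bU K e₁ u, cU K e₂ u)) 0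
  let D2 : K1 ρ lam ⊕ K2 ρ lam → Bool → (Fin 2 → K) × (α i₁ → K) × (α i₂ → K) :=
    extend g (fun u β => (a2 τ u β, b2 K e₁ u β, c2 K e₂ u β)) 0
  have hD1 : ∀ u, D1 (g u) = (bU K e₁ u, cU K e₂ u) := fun u => g.injective.extend_apply _ _ _
  have hD2 : ∀ u, D2 (g u) = fun β => (a2 τ u β, b2 K e₁ u β, c2 K e₂ u β) :=
    fun u => g.injective.extend_apply _ _ _
  let dat : (Bool × Fin ρ) ⊕ K1 ρ lam ⊕ (K2 ρ lam × Bool) →
      (Fin 2 → K) × (α i₁ → K) × (α i₂ → K) := fun o =>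
    match o with
    | Sum.inl j => (![1, τ j], Pi.single (e₁ (Sum.inl j)) 1, Pi.single (e₂ (Sum.inl j)) 1)
    | Sum.inr (Sum.inl k) => (0, (D1 (Sum.inl k)).1, (D1 (Sum.inl k)).2)
    | Sum.inr (Sum.inr k) => D2 (Sum.inr k.1) k.2
  let E : PIx α i₀ i₁ i₂ q ρ → (Fin 2 → K) × (α i₁ → K) × (α i₂ → K) :=
    extend (injO lam) dat 0
  have hE : ∀ o, E (injO lam o) = dat o := fun o => (injO_injective lam).extend_apply _ _ _
  let cfg : Var α i₀ i₁ i₂ q ρ → K := fun v =>
    match v.2 with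
    | Sum.inl s => (E v.1).1 s
    | Sum.inr (Sum.inl s) => (E v.1).2.1 s
    | Sum.inr (Sum.inr s) => (E v.1).2.2 s
  have hA : ∀ p, vecA cfg p = (E p).1 := fun p => rfl
  have hB : ∀ p, vecB cfg p = (E p).2.1 := fun p => rfl
  have hC : ∀ p, vecC cfg p = (E p).2.2 := fun p => rfl
  refine ⟨cfg, ?_⟩
  have hm : ∀ gg, gvec cfg lam gg ∈ Submodule.span K (Set.range (gvec cfg lam)) :=
    fun gg => Submodule.subset_span ⟨gg, rfl⟩
  have s0 : (![1, 0] : Fin 2 → K) = Pi.single 0 1 := by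
    funext i; fin_cases i <;> simp
  have s1 : (![0, 1] : Fin 2 → K) = Pi.single 1 1 := by
    funext i; fin_cases i <;> simp
  refine local_top e₁ e₂ τ hτ _ ?_ ?_ ?_ ?_
  · intro j p
    have h1 := hm (Sum.inl (j, p))
    simp only [gvec] at h1
    rw [hA, hC, show ((lam, j) : PIx α i₀ i₁ i₂ q ρ) = injO lam (Sum.inl j) from rfl, hE] at h1
    exact h1
  · intro j p
    have h1 := hm (Sum.inr (Sum.inl (j, p)))
    simp only [gvec] at h1
    rw [hA, hB, show ((lam, j) : PIx α i₀ i₁ i₂ q ρ) = injO lam (Sum.inl j) from rfl, hE] at h1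
    exact h1
  · intro j V
    have h1 : ∀ s, tri (Pi.single s 1) (Pi.single (e₁ (Sum.inl j)) (1 : K))
        (Pi.single (e₂ (Sum.inl j)) 1) ∈ Submodule.span K (Set.range (gvec cfg lam)) := by
      intro s
      have h1 := hm (Sum.inr (Sum.inr (Sum.inl (lam.1, j, s))))
      simp only [gvec] at h1
      rw [hB, hC, show (((lam.1, lam.2), j) : PIx α i₀ i₁ i₂ q ρ) = injO lam (Sum.inl j) from rfl,
        hE] at h1
      exact h1
    exact tri_mem_of_basis _ (s0 ▸ h1 0) (s1 ▸ h1 1) V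
  · intro u
    rcases hk : g u with k | k
    · left
      intro V
      have h1 : ∀ s, tri (Pi.single s 1) (bU K e₁ u) (cU K e₂ u) ∈
          Submodule.span K (Set.range (gvec cfg lam)) := by
        intro s
        have h1 := hm (Sum.inr (Sum.inr (Sum.inl (k.1.1, k.2, s))))
        simp only [gvec] at h1
        rw [hB, hC, show (((k.1.1, lam.2), k.2) : PIx α i₀ i₁ i₂ q ρ) =
          injO lam (Sum.inr (Sum.inl k)) from rfl, hE] at h1
        have h2 : D1 (Sum.inl k) = (bU K e₁ u, cU K e₂ u) := by rw [← hk]; exact hD1 u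
        simp only [dat, h2] at h1
        exact h1
      exact tri_mem_of_basis _ (s0 ▸ h1 0) (s1 ▸ h1 1) V
    · right
      intro β
      have h1 := hm (Sum.inr (Sum.inr (Sum.inr (⟨k.1.1, k.1.2.1⟩, (β, k.2)))))
      simp only [gvec] at h1
      rw [hA, hB, hC, show (((lam.1, update lam.2 k.1.1 k.1.2.1), (β, k.2)) : PIx α i₀ i₁ i₂ q ρ) =
        injO lam (Sum.inr (Sum.inr (k, β))) from rfl, hE] at h1
      have h2 : D2 (Sum.inr k) = fun β => (a2 τ u β, b2 K e₁ u β, c2 K e₂ u β) := by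
        rw [← hk]; exact hD2 u
      simp only [dat, h2] at h1
      exact h1

/-- **Non-defectivity.** -/
theorem exists_spans [Infinite K] (h01 : i₀ ≠ i₁) (h02 : i₀ ≠ i₂) (h12 : i₁ ≠ i₂)
    (e₀ : α i₀ ≃ Fin q × Fin 2) (e₁ : (Bool × Fin ρ) ⊕ Fin y ≃ α i₁)
    (e₂ : (Bool × Fin ρ) ⊕ Fin z ≃ α i₂)
    (hcard : ρ * z + y * ρ + y * z ≤
      (q - 1) * (2 * ρ) + (∑ l : Mid i₀ i₁ i₂, (Fintype.card (α l) - 1)) * ρ) :
    ∃ P : PIx α i₀ i₁ i₂ q ρ → ∀ i, α i → K, Spans P := by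
  classical
  have h1 : ∀ lam : Loc α i₀ i₁ i₂ q, ∃ D : MvPolynomial (Var α i₀ i₁ i₂ q ρ) K, D ≠ 0 ∧
      ∀ c : Var α i₀ i₁ i₂ q ρ → K, MvPolynomial.eval c D ≠ 0 →
        Submodule.span K (Set.range (gvec c lam)) = ⊤ := by
    intro lam
    have hc : Fintype.card (Units' ρ y z) ≤ Fintype.card (K1 ρ lam ⊕ K2 ρ lam) := by
      have e1 : Fintype.card (Units' ρ y z) = ρ * z + y * ρ + y * z := by
        simp [add_assoc]
      have e2 : Fintype.card (K1 ρ lam) = (q - 1) * (2 * ρ) := by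
        rw [Fintype.card_prod, Fintype.card_subtype_compl, Fintype.card_subtype_eq]
        simp
      have e3 : Fintype.card (K2 ρ lam) =
          (∑ l : Mid i₀ i₁ i₂, (Fintype.card (α l) - 1)) * ρ := by
        rw [Fintype.card_prod, Fintype.card_sigma, Fintype.card_fin]
        congr 1
        refine Finset.sum_congr rfl fun l _ => ?_
        rw [Fintype.card_subtype_compl, Fintype.card_subtype_eq]
      rw [e1, Fintype.card_sum, e2, e3]
      exact hcard
    obtain ⟨c₀, hc₀⟩ := exists_local (K := K) e₁ e₂ lam hc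
    have heval : ∀ c : Var α i₀ i₁ i₂ q ρ → K,
        (fun g b => MvPolynomial.eval c (gvec (MvPolynomial.X (R := K)) lam g b)) =
          gvec c lam := by
      intro c
      funext g b
      rw [map_gvec]
      congr 1
      funext v
      exact MvPolynomial.eval_X v
    obtain ⟨D, hD0, hD⟩ := exists_poly (K := K)
      (fun g b => gvec (MvPolynomial.X (R := K)) lam g b) c₀ (by
        rw [heval c₀]; exact hc₀)
    refine ⟨D, hD0, fun c hc => ?_⟩
    have := hD c hc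
    rw [heval c] at this
    exact this
  choose D hD0 hD using h1
  obtain ⟨c, hc⟩ := exists_common D hD0
  exact ⟨PP e₀ c, spans_of_local e₀ h01 h02 h12 c fun lam => hD lam c (hc lam)⟩

end Pool.Agent.TH140.MR
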