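import Pool.Agent.TH140.MR.Cube3Final

/-!
# Typical ranks of real tensors
-/

set_option autoImplicit false

open Function

namespace Pool.Agent.TH140.MR

/-- `r` is a typical rank of the real tensors of format `n`: the set of the tensors of rank exactly
`r` has nonempty interior. -/
def IsTypicalRank {d : ℕ} (n : Fin d → ℕ) (r : ℕ) : Prop :=
  (interior {T : (∀ i, Fin (n i)) → ℝ | tensorRank T = r}).Nonempty

theorem typical_le_maxRank {d : ℕ} [NeZero d] (n : Fin d → ℕ) (r : ℕ) (h : IsTypicalRank n r) :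
    r ≤ maxRank ℝ n := by
  obtain ⟨T, hT⟩ := h
  have h1 : T ∈ {T : (∀ i, Fin (n i)) → ℝ | tensorRank T = r} := interior_subset hT
  have h1 : tensorRank T = r := h1
  have hb : BddAbove (Set.range (tensorRank : ((∀ i, Fin (n i)) → ℝ) → ℕ)) := by
    refine ⟨∏ j : {j : Fin d // j ≠ 0}, Fintype.card (Fin (n j)), ?_⟩
    rintro _ ⟨T, rfl⟩
    exact Nat.sInf_le (rankLE_slices (0 : Fin d) T)
  rw [← h1]
  exact le_csSup hb ⟨T, rfl⟩

theorem prod_le_typical_mul {d : ℕ} [NeZero d] (n : Fin d → ℕ) (r : ℕ) (h : IsTypicalRank n r) :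
    ∏ i, n i ≤ r * ∑ i, n i := by
  by_contra hcon
  push Not at hcon
  let f : (Fin r → ∀ i, Fin (n i) → ℝ) → ((∀ i, Fin (n i)) → ℝ) :=
    fun v x => ∑ k, ∏ i, v k i (x i)
  have hf : ContDiff ℝ 1 f := by
    rw [contDiff_pi]
    intro x
    refine ContDiff.sum fun k _ => ?_
    refine contDiff_prod fun i _ => ?_
    have h1 : ContDiff ℝ 1 (fun v : Fin r → ∀ i, Fin (n i) → ℝ => v k) := contDiff_apply ℝ _ k
    have h2 : ContDiff ℝ 1 (fun v : (∀ i, Fin (n i) → ℝ) => v i) := by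
      exact (ContinuousLinearMap.proj (R := ℝ) i :
        (∀ i, Fin (n i) → ℝ) →L[ℝ] (Fin (n i) → ℝ)).contDiff
    have h3 : ContDiff ℝ 1 (fun v : Fin (n i) → ℝ => v (x i)) := contDiff_apply ℝ _ (x i)
    exact h3.comp (h2.comp h1)
  have hfr : Module.finrank ℝ (Fin r → ∀ i, Fin (n i) → ℝ) <
      Module.finrank ℝ ((∀ i, Fin (n i)) → ℝ) := by
    rw [Module.finrank_pi_fintype, Module.finrank_pi]
    simp only [Module.finrank_pi_fintype, Module.finrank_self, Finset.sum_const, Finset.card_univ,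
      Fintype.card_fin, Fintype.card_pi, smul_eq_mul, mul_one]
    exact hcon
  have hd := hf.dense_compl_range_of_finrank_lt_finrank hfr
  obtain ⟨T, hT, hT'⟩ := hd.inter_open_nonempty _ isOpen_interior h
  apply hT'
  have h1 : T ∈ {T : (∀ i, Fin (n i)) → ℝ | tensorRank T = r} := interior_subset hT
  have h1 : tensorRank T = r := h1
  have h2 := rankLE_tensorRank T
  rw [h1] at h2
  obtain ⟨v, hv⟩ := h2
  exact ⟨v, hv.symm⟩

theorem typical_cube (n r : ℕ) (h : IsTypicalRank (fun _ : Fin 3 => n) r) :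
    (n : ℝ) ^ 2 / 3 ≤ r ∧ (r : ℝ) ≤ (n : ℝ) ^ 2 / 3 + 14 * n / 3 + 8 := by
  constructor
  · rcases Nat.eq_zero_or_pos n with rfl | hn
    · simp
    · have h1 := prod_le_typical_mul _ r h
      simp only [Finset.prod_const, Finset.sum_const, Finset.card_univ, Fintype.card_fin,
        smul_eq_mul] at h1
      have h2 : (n : ℝ) ^ 3 ≤ r * (3 * n) := by exact_mod_cast h1
      have h3 : (0 : ℝ) < n := by exact_mod_cast hn
      have h4 : ((n : ℝ) ^ 2 / 3 - r) * (3 * n) ≤ 0 := by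
        have : ((n : ℝ) ^ 2 / 3 - r) * (3 * n) = (n : ℝ) ^ 3 - r * (3 * n) := by ring
        rw [this]; linarith
      have h5 : (n : ℝ) ^ 2 / 3 - r ≤ 0 := by
        by_contra hcon
        push Not at hcon
        have : 0 < ((n : ℝ) ^ 2 / 3 - r) * (3 * n) := by positivity
        linarith
      linarith
  · have h1 := typical_le_maxRank _ r h
    have h2 := maxRank_cube_real ℝ n ((n + 2) / 3) (by omega)
    have h3 : 3 * ((n + 2) / 3) ≤ n + 2 := Nat.mul_div_le _ _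
    set k := (n + 2) / 3
    have h4 : (r : ℝ) ≤ 3 * (k : ℝ) ^ 2 + 10 * k := by exact_mod_cast h1.trans h2
    have h5 : 3 * (k : ℝ) ≤ n + 2 := by exact_mod_cast h3
    have h6 : (0 : ℝ) ≤ k := Nat.cast_nonneg _
    nlinarith

/-- The number of typical ranks of the real tensors of format `n × n × n`. -/
theorem ncard_typical_cube (n : ℕ) :
    ({r : ℕ | IsTypicalRank (fun _ : Fin 3 => n) r}.ncard : ℝ) ≤ 14 * n / 3 + 9 := by
  have h1 : {r : ℕ | IsTypicalRank (fun _ : Fin 3 => n) r} ⊆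
      (Finset.Icc ⌈(n : ℝ) ^ 2 / 3⌉₊ ⌊(n : ℝ) ^ 2 / 3 + 14 * n / 3 + 8⌋₊ : Set ℕ) := by
    intro r hr
    obtain ⟨h2, h3⟩ := typical_cube n r hr
    rw [Finset.coe_Icc, Set.mem_Icc]
    exact ⟨Nat.ceil_le.2 h2, Nat.le_floor h3⟩
  have h2 := Set.ncard_le_ncard h1 (Finset.finite_toSet _)
  rw [Set.ncard_coe_finset, Nat.card_Icc] at h2
  have h3 : ((⌊(n : ℝ) ^ 2 / 3 + 14 * n / 3 + 8⌋₊ + 1 - ⌈(n : ℝ) ^ 2 / 3⌉₊ : ℕ) : ℝ) ≤
      14 * n / 3 + 9 := by
    have h4 : (n : ℝ) ^ 2 / 3 ≤ ⌈(n : ℝ) ^ 2 / 3⌉₊ := Nat.le_ceil _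
    have h5 : (⌊(n : ℝ) ^ 2 / 3 + 14 * n / 3 + 8⌋₊ : ℝ) ≤ (n : ℝ) ^ 2 / 3 + 14 * n / 3 + 8 :=
      Nat.floor_le (by positivity)
    rcases le_total ⌈(n : ℝ) ^ 2 / 3⌉₊ (⌊(n : ℝ) ^ 2 / 3 + 14 * n / 3 + 8⌋₊ + 1) with h6 | h6
    · rw [Nat.cast_sub h6]
      push_cast
      linarith
    · rw [Nat.sub_eq_zero_of_le h6]
      push_cast
      positivity
  have h4 : (({r : ℕ | IsTypicalRank (fun _ : Fin 3 => n) r}.ncard : ℕ) : ℝ) ≤
      ((⌊(n : ℝ) ^ 2 / 3 + 14 * n / 3 + 8⌋₊ + 1 - ⌈(n : ℝ) ^ 2 / 3⌉₊ : ℕ) : ℝ) := by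
    exact_mod_cast h2
  exact h4.trans h3

end Pool.Agent.TH140.MR
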