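import Pool.Agent.TH140.MR.Special
import Pool.Agent.TH140.MR.Chars

/-!
# Upper bounds for the rank of all tensors of a given format
-/

set_option autoImplicit false

open Function

namespace Pool.Agent.TH140.MR

section embed

variable {K : Type*} {ι : Type*} [Fintype ι] {α β : ι → Type*}

theorem RankLE.of_embed [CommSemiring K] {N : ℕ} (g : ∀ i, β i → α i) (r : ∀ i, α i → β i)
    (hr : ∀ i b, r i (g i b) = b) (T : (∀ i, β i) → K)
    (h : RankLE N (fun x : ∀ i, α i => T fun i => r i (x i))) : RankLE N T := by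
  obtain ⟨v, hv⟩ := h
  refine ⟨fun k i b => v k i (g i b), ?_⟩
  funext x
  have := congrFun hv (fun i => g i (x i))
  simp only [hr] at this
  exact this

end embed

/-- The bound by slices: all tensors are sums of `∏_{j ≠ i₀} |α j|` decomposable tensors. -/
theorem rankLE_slices {K : Type*} [Field K] {ι : Type*} [Fintype ι] [DecidableEq ι]
    {α : ι → Type*} [∀ i, Fintype (α i)] [∀ i, DecidableEq (α i)] (i₀ : ι)
    (T : (∀ i, α i) → K) :
    RankLE (∏ j : {j : ι // j ≠ i₀}, Fintype.card (α j)) T := by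
  classical
  let e := Equiv.piSplitAt i₀ α
  let v : (∀ j : {j : ι // j ≠ i₀}, α j) → ∀ i, α i → K := fun y =>
    update (fun j => if h : j ≠ i₀ then Pi.single (y ⟨j, h⟩) (1 : K) else 0) i₀
      (fun a => T (e.symm (a, y)))
  have h := rankLE_of_card v T (by
    intro x
    simp only [v]
    rw [Finset.sum_eq_single (fun j : {j : ι // j ≠ i₀} => x j)]
    · rw [Fintype.prod_eq_mul_prod_subtype_ne _ i₀, update_self]
      have h1 : e.symm (x i₀, fun j : {j : ι // j ≠ i₀} => x j) = x := e.symm_apply_apply x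
      rw [h1]
      rw [Finset.prod_eq_one, mul_one]
      intro j _
      rw [update_of_ne j.2, dif_pos j.2, Pi.single_eq_same]
    · intro y _ hy
      rw [Fintype.prod_eq_mul_prod_subtype_ne _ i₀]
      have : ∃ j : {j : ι // j ≠ i₀}, x j ≠ y j := by
        by_contra hcon
        push Not at hcon
        exact hy (funext fun j => (hcon j).symm)
      obtain ⟨j, hj⟩ := this
      rw [Finset.prod_eq_zero (Finset.mem_univ j), mul_zero]
      rw [update_of_ne j.2, dif_pos j.2, Pi.single_eq_of_ne hj]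
    · intro h; exact absurd (Finset.mem_univ _) h)
  rwa [Fintype.card_pi] at h

/-- The main upper bound, with parameters. -/
theorem rankLE_of_params {K : Type*} [RCLike K] {d : ℕ} (n h : Fin d → ℕ) (l ρ : ℕ)
    {i₀ i₁ i₂ : Fin d} (h01 : i₀ ≠ i₁) (h02 : i₀ ≠ i₂) (h12 : i₁ ≠ i₂)
    (hpos : ∀ i, 0 < n i) (hn : ∀ i, n i ≤ 2 * h i * 2 ^ l)
    (h1 : ρ ≤ h i₁) (h2 : ρ ≤ h i₂)
    (hc : (2 * h i₁) * (2 * h i₂) ≤ ρ * (2 * h i₁ + 2 * h i₂ + 2 * (h i₀ - 1) +
      ∑ j : Mid i₀ i₁ i₂, (2 * h j - 1))) (T : (∀ i, Fin (n i)) → K) :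
    RankLE (h i₀ * (∏ j : Mid i₀ i₁ i₂, 2 * h j) * (2 * ρ) * ((2 ^ l) ^ (d - 1) + 2 ^ l)) T := by
  classical
  let α : Fin d → Type := fun i => Fin (2 * h i)
  have e₀ : α i₀ ≃ Fin (h i₀) × Fin 2 := Fintype.equivOfCardEq (by simp [α, mul_comm])
  have e₁ : (Bool × Fin ρ) ⊕ Fin (2 * h i₁ - 2 * ρ) ≃ α i₁ :=
    Fintype.equivOfCardEq (by simp [α]; omega)
  have e₂ : (Bool × Fin ρ) ⊕ Fin (2 * h i₂ - 2 * ρ) ≃ α i₂ :=
    Fintype.equivOfCardEq (by simp [α]; omega)
  obtain ⟨P, hP⟩ := exists_spans (K := K) (α := α) h01 h02 h12 e₀ e₁ e₂ (by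
    have e3 : ∑ j : Mid i₀ i₁ i₂, (Fintype.card (α j) - 1) =
        ∑ j : Mid i₀ i₁ i₂, (2 * h j - 1) := by
      refine Finset.sum_congr rfl fun j _ => ?_
      simp [α]
    rw [e3]
    obtain ⟨a, ha⟩ := Nat.exists_eq_add_of_le h1
    obtain ⟨b, hb⟩ := Nat.exists_eq_add_of_le h2
    rw [ha, hb] at hc ⊢
    generalize (∑ j : Mid i₀ i₁ i₂, (2 * h j - 1)) = S at hc ⊢
    have e4 : 2 * (ρ + a) - 2 * ρ = 2 * a := by omega
    have e5 : 2 * (ρ + b) - 2 * ρ = 2 * b := by omega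
    rw [e4, e5]
    generalize h i₀ - 1 = c at hc ⊢
    nlinarith)
  have : Nonempty (Fin d) := ⟨i₀⟩
  have hcardP : Fintype.card (PIx α i₀ i₁ i₂ (h i₀) ρ) =
      h i₀ * (∏ j : Mid i₀ i₁ i₂, 2 * h j) * (2 * ρ) := by
    simp [α]
  have hcardG : ∀ i, Fintype.card (Fin (n i)) ≤ Fintype.card (α i × (Fin l → ZMod 2)) := by
    intro i
    simpa [α, ZMod.card] using hn i
  have hg : ∀ i, ∃ g : Fin (n i) → α i × (Fin l → ZMod 2), ∃ r : α i × (Fin l → ZMod 2) →
      Fin (n i), ∀ b, r (g b) = b := by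
    intro i
    obtain ⟨g⟩ := Function.Embedding.nonempty_of_card_le (hcardG i)
    have : Nonempty (Fin (n i)) := ⟨⟨0, hpos i⟩⟩
    exact ⟨g, invFun g, leftInverse_invFun g.injective⟩
  choose g r hr using hg
  refine RankLE.of_embed g r hr T ?_
  have := rankLE_blow P hP l (fun x => T fun i => r i (x i))
  rw [hcardP, Fintype.card_fin] at this
  exact this

end Pool.Agent.TH140.MR
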